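import Pool.Agent.W939.Med.Lat

set_option autoImplicit false

/-! The sentence as a first-order sentence. -/

namespace Pool.Agent.W939.Med

open FirstOrder

/-- the sentence -/
def sentF : latticeLang.Sentence :=
  (((((compF (3 : Fin 4) (1 : Fin 4)).ex : BF 3) ⊓
    (((compF (3 : Fin 4) (0 : Fin 4)).imp
      ((compF (4 : Fin 5) (1 : Fin 5)) ⊓
        leF (vr (2 : Fin 5)) (tjoin (vr (3 : Fin 5)) (vr (4 : Fin 5)))).ex).all : BF 3)) ⊓
    ((((compF (3 : Fin 5) (1 : Fin 5)).imp ((compF (4 : Fin 5) (1 : Fin 5)).imp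
      ((compF (5 : Fin 6) (1 : Fin 6)) ⊓
        ((compF (6 : Fin 7) (0 : Fin 7)).imp
          ((leF (vr (2 : Fin 7)) (tjoin (vr (6 : Fin 7)) (vr (3 : Fin 7))) ⊔
            leF (vr (2 : Fin 7)) (tjoin (vr (6 : Fin 7)) (vr (4 : Fin 7)))).imp
            (leF (vr (2 : Fin 7)) (tjoin (vr (6 : Fin 7)) (vr (5 : Fin 7)))))).all).ex)).all).all
        : BF 3)) ⊓
    (((compF (3 : Fin 4) (1 : Fin 4)).imp
      ((compF (4 : Fin 5) (0 : Fin 5)) ⊓
        (leF (vr (2 : Fin 5)) (tjoin (vr (4 : Fin 5)) (vr (3 : Fin 5)))).not).ex).all : BF 3) ⊓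
    ((((((compF (4 : Fin 5) (1 : Fin 5)).imp
      ((compF (5 : Fin 6) (0 : Fin 6)) ⊓ leF (vr (3 : Fin 6)) (vr (5 : Fin 6)) ⊓
        (leF (vr (2 : Fin 6)) (tjoin (vr (5 : Fin 6)) (vr (4 : Fin 6)))).not).ex).all : BF 4).imp
      (((((irrF (4 : Fin 7)) ⊓
        leF (tmeet (vr (5 : Fin 7)) (vr (6 : Fin 7))) (tjoin (vr (0 : Fin 7)) (vr (4 : Fin 7)))) ⊓
        ((compF (7 : Fin 8) (1 : Fin 8)).imp
          ((compF (8 : Fin 9) (0 : Fin 9)) ⊓ leF (vr (3 : Fin 9)) (vr (8 : Fin 9)) ⊓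
            (leF (vr (2 : Fin 9)) (tjoin (vr (8 : Fin 9)) (vr (7 : Fin 9)))).not ⊓
            (leF (vr (5 : Fin 9)) (tjoin (vr (8 : Fin 9)) (vr (4 : Fin 9)))).not).ex).all ⊓
        ((compF (7 : Fin 8) (1 : Fin 8)).imp
          ((compF (8 : Fin 9) (0 : Fin 9)) ⊓ leF (vr (3 : Fin 9)) (vr (8 : Fin 9)) ⊓
            (leF (vr (2 : Fin 9)) (tjoin (vr (8 : Fin 9)) (vr (7 : Fin 9)))).not ⊓
            (leF (vr (6 : Fin 9)) (tjoin (vr (8 : Fin 9)) (vr (4 : Fin 9)))).not).ex).all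
              : BF 7).ex : BF 6).ex : BF 5).ex : BF 4) : BF 4).all : BF 3)).ex.ex.ex

theorem realize_sentF (M : Type) [Lattice M] : M ⊨ sentF ↔ Sent M := by
  unfold sentF Sent
  simp only [Language.Sentence.Realize, Language.Formula.Realize,
    Language.BoundedFormula.realize_all, Language.BoundedFormula.realize_imp,
    Language.BoundedFormula.realize_sup, Language.BoundedFormula.realize_inf,
    Language.BoundedFormula.realize_ex, Language.BoundedFormula.realize_not, realize_irrF,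
    realize_compF, realize_leF, realize_tmeet, realize_tjoin, realize_vr]
  simp [Fin.snoc, and_assoc]

end Pool.Agent.W939.Med
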