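import Pool.Agent.W939.Med.Gen

set_option autoImplicit false

/-! The sentence holds in the lattice of closed subsets of Baire space. -/

namespace Pool.Agent.W939.Med

/-- string test -/
def tst (ρ σ : List ℕ) : List ℕ :=
  bif decide (σ.length < ρ.length) then []
  else bif decide (σ.take ρ.length = ρ) then [0] else [1]

theorem tst_seg (ρ : List ℕ) (g : ℕ → ℕ) (m : ℕ) (h : ρ.length ≤ m) :
    tst ρ (seg g m) = if seg g ρ.length = ρ then [0] else [1] := by
  unfold tst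
  rw [seg_length, decide_eq_false (by omega), cond_false, seg_take g h]
  split_ifs with h1
  · rw [decide_eq_true h1]; rfl
  · rw [decide_eq_false h1]; rfl

theorem tst_seg_lt (ρ : List ℕ) (g : ℕ → ℕ) (m : ℕ) (h : m < ρ.length) :
    tst ρ (seg g m) = [] := by
  unfold tst
  rw [seg_length, decide_eq_true h]; rfl

theorem isFunctional_tst (ρ : List ℕ) : IsFunctional (tst ρ) := by
  constructor
  · unfold tst
    have h1 : Primrec (fun σ : List ℕ => decide (σ.length < ρ.length)) :=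
      (Primrec.nat_lt.comp Primrec.list_length (Primrec.const _)).decide
    have h2 : Primrec (fun σ : List ℕ => decide (σ.take ρ.length = ρ)) :=
      (Primrec.eq.comp (Primrec.list_take.comp (Primrec.const _) Primrec.id)
        (Primrec.const ρ)).decide
    exact (Primrec.cond h1 (Primrec.const []) (Primrec.cond h2 (Primrec.const [0])
      (Primrec.const [1]))).to_comp
  · apply mono_of_seg
    intro g m n h
    by_cases hm : m < ρ.length
    · rw [tst_seg_lt _ _ _ hm]; exact List.nil_prefix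
    · rw [tst_seg _ _ _ (by omega), tst_seg _ _ _ (by omega)]

theorem dec_tst (ρ : List ℕ) (g : ℕ → ℕ) : g ∈ Dec (tst ρ) := by
  refine ⟨ρ.length, ?_⟩
  rw [tst_seg _ _ _ le_rfl]
  split_ifs <;> simp

theorem hit_tst (ρ : List ℕ) (g : ℕ → ℕ) : g ∈ Hit (tst ρ) ↔ seg g ρ.length = ρ := by
  have h := tst_seg ρ g ρ.length le_rfl
  by_cases h1 : seg g ρ.length = ρ
  · rw [if_pos h1] at h
    exact ⟨fun _ => h1, fun _ => ⟨_, _, h⟩⟩
  · rw [if_neg h1] at h
    rw [hit_not (isFunctional_tst ρ) h]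
    simp [h1]

theorem hit_tst_one (n : ℕ) (g : ℕ → ℕ) : g ∈ Hit (tst [n]) ↔ g 0 = n := by
  rw [hit_tst]
  simp [seg]

/-- singletons -/
def sing (f : ℕ → ℕ) : ClosedSets Space.baire :=
  ⟨{f}, isClosed_singleton, ⟨f, rfl⟩, fun _ _ => trivial⟩

theorem irr_sing (f : ℕ → ℕ) : Irr (deg (sing f)) := by
  intro u v h
  obtain ⟨U, rfl⟩ := exists_rep u
  obtain ⟨V, rfl⟩ := exists_rep v
  rw [deg_inf, deg_le] at h
  obtain ⟨φ, hφ, h1⟩ := h
  obtain ⟨e, he, h2⟩ := h1 f rfl
  rcases mem_meetSet.1 he with ⟨-, h3⟩ | ⟨-, h3⟩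
  · left
    rw [deg_le]
    refine ⟨_, isFunctional_tail hφ, ?_⟩
    rintro g (rfl : g = f)
    exact ⟨_, h3, maps_tail h2⟩
  · right
    rw [deg_le]
    refine ⟨_, isFunctional_tail hφ, ?_⟩
    rintro g (rfl : g = f)
    exact ⟨_, h3, maps_tail h2⟩

/-! ### Families -/

/-- the members of a family with index in `I` -/
def fam (e : ℕ → ℕ → ℕ) (I : Set ℕ) : Set (ℕ → ℕ) := {h | h 0 ∈ I ∧ h = e (h 0)}

theorem mem_fam {e : ℕ → ℕ → ℕ} (he : ∀ n, e n 0 = n) {I : Set ℕ} {n : ℕ} :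
    e n ∈ fam e I ↔ n ∈ I := by
  unfold fam
  rw [Set.mem_ofPred_eq, he]
  simp

theorem isClosed_fam (e : ℕ → ℕ → ℕ) (I : Set ℕ) : IsClosed (fam e I) := by
  have h1 : IsClosed {h : ℕ → ℕ | h 0 ∈ I} :=
    (isClosed_discrete I).preimage (continuous_apply (A := fun _ : ℕ => ℕ) 0)
  have h2 : IsClosed {h : ℕ → ℕ | h = e (h 0)} :=
    isClosed_eq continuous_id (continuous_of_discreteTopology.comp
      (continuous_apply (A := fun _ : ℕ => ℕ) 0))
  exact h1.inter h2

/-- the closed set of the members of a family -/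
def famC (e : ℕ → ℕ → ℕ) (he : ∀ n, e n 0 = n) (I : Set ℕ) (hI : I.Nonempty) :
    ClosedSets Space.baire :=
  ⟨fam e I, isClosed_fam e I, by
    obtain ⟨n, hn⟩ := hI
    exact ⟨e n, (mem_fam he).2 hn⟩, fun _ _ => trivial⟩

theorem isComp_fam {e : ℕ → ℕ → ℕ} (he : ∀ n, e n 0 = n)
    (hind : ∀ φ, IsFunctional φ → ∀ n m, Maps φ (e n) (e m) → n = m) (d : Degrees Space.baire) :
    IsComp d (deg (famC e he Set.univ Set.univ_nonempty)) ↔ ∃ n, d = deg (sing (e n)) := by
  have hmem : ∀ {I : Set ℕ} {h : ℕ → ℕ}, h ∈ fam e I → h = e (h 0) := fun h => h.2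
  constructor
  · intro h
    obtain ⟨f, rfl⟩ := exists_rep d
    obtain ⟨θ, hθ, hd, h1, h2, h3⟩ := exists_repr h
    have hne : ((famC e he Set.univ Set.univ_nonempty).1 ∩ Hit θ).Nonempty := by
      by_contra h4
      rw [Set.not_nonempty_iff_eq_empty] at h4
      rw [h4] at h2
      exact empty_not_le f.nonempty h2
    obtain ⟨g, hg, hg'⟩ := hne
    set P := (famC e he Set.univ Set.univ_nonempty).1 ∩ Hit θ with hP
    have hPc : IsClosed P := isClosed_inter_Hit hθ (isClosed_fam _ _) hd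
    obtain ⟨n, rfl⟩ : ∃ n, g = e n := ⟨_, hg.2⟩
    refine ⟨n, ?_⟩
    have hfn : MedvedevLe f.1 {e n} := medvedevLe_trans h1 (medvedevLe_of_subset (by
      rintro _ rfl; exact ⟨hg, hg'⟩))
    rcases irr_split h.1 (isFunctional_tst [n]) hPc (fun _ _ => trivial)
      (fun g _ => dec_tst _ g) h2 with h5 | h5
    · apply le_antisymm
      · rw [deg_le]; exact hfn
      · rw [deg_le]
        refine medvedevLe_trans (medvedevLe_of_subset ?_) h5
        rintro x ⟨⟨hx, -⟩, hx'⟩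
        rw [hit_tst_one] at hx'
        rw [hmem hx, hx']
        rfl
    · exfalso
      obtain ⟨φ, hφ, h6⟩ := medvedevLe_trans h5 hfn
      obtain ⟨x, ⟨⟨hx, -⟩, hx'⟩, h7⟩ := h6 (e n) rfl
      rw [hit_tst_one] at hx'
      have h8 := hmem hx
      rw [h8] at h7
      exact hx' (hind φ hφ _ _ h7).symm
  · rintro ⟨n, rfl⟩
    refine ⟨irr_sing _, deg (famC e he {n}ᶜ ⟨n + 1, by simp⟩), ?_, ?_⟩
    · apply le_antisymm
      · apply le_inf
        · rw [deg_le]
          refine medvedevLe_of_subset ?_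
          rintro _ rfl
          exact (mem_fam he).2 trivial
        · rw [deg_le]
          exact medvedevLe_of_subset (fun h hh => ⟨trivial, hh.2⟩)
      · rw [deg_inf, deg_le]
        have h1 := split_le (isFunctional_tst [n]) (B := fam e Set.univ)
          (fun g _ => dec_tst _ g)
        refine medvedevLe_trans (medvedevLe_of_subset ?_) h1
        intro h hh
        rw [mem_meetSet] at hh
        show h ∈ meetSet {e n} (fam e {n}ᶜ)
        rw [mem_meetSet]
        rcases hh with ⟨h2, ⟨-, h3⟩, h4⟩ | ⟨h2, ⟨-, h3⟩, h4⟩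
        · left
          rw [hit_tst_one] at h4
          refine ⟨h2, ?_⟩
          rw [h3, h4]
          rfl
        · right
          rw [hit_tst_one] at h4
          exact ⟨h2, h4, h3⟩
    · rw [deg_le]
      rintro ⟨φ, hφ, h1⟩
      obtain ⟨x, hx, h2⟩ := h1 (e n) rfl
      have h3 := hmem hx
      rw [h3] at h2
      exact hx.1 (hind φ hφ _ _ h2).symm

/-! ### The labelling functional -/

/-- from `f ⊕ X` compute `i ⌢ f` where `i = 0` iff `X (f 0) = 0` -/
def labL (σ : List ℕ) : List ℕ :=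
  bif decide ((evL σ).getD 0 0 < (odL σ).length) then
    (bif decide ((odL σ).getD ((evL σ).getD 0 0) 0 = 0) then 0 else 1) :: evL σ
  else []

theorem labL_seg (h : ℕ → ℕ) (m : ℕ) (hm : 0 < m) : labL (seg h m) =
    if h 0 < m / 2 then (if h (2 * h 0 + 1) = 0 then 0 else 1) :: seg (evn h) ((m + 1) / 2)
    else [] := by
  have h1 : (evL (seg h m)).getD 0 0 = h 0 := by
    rw [evL_seg, seg_getD _ _ _ (by omega)]; rfl
  unfold labL
  rw [h1]
  by_cases h2 : h 0 < m / 2
  · rw [odL_seg, seg_length, decide_eq_true h2, cond_true, if_pos h2, seg_getD _ _ _ h2, evL_seg]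
    congr 1
    by_cases h3 : h (2 * h 0 + 1) = 0
    · rw [if_pos h3, decide_eq_true (show odd h (h 0) = 0 from h3)]; rfl
    · rw [if_neg h3, decide_eq_false (show ¬ odd h (h 0) = 0 from h3)]; rfl
  · rw [odL_seg, seg_length, decide_eq_false h2, cond_false, if_neg h2]

theorem isFunctional_labL : IsFunctional labL := by
  constructor
  · unfold labL
    have e := evL_primrec
    have o := odL_primrec
    have e0 : Primrec (fun σ : List ℕ => (evL σ).getD 0 0) :=
      (Primrec.list_getD 0).comp e (Primrec.const 0)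
    have h1 : Primrec (fun σ : List ℕ => decide ((evL σ).getD 0 0 < (odL σ).length)) :=
      (Primrec.nat_lt.comp e0 (Primrec.list_length.comp o)).decide
    have h2 : Primrec (fun σ : List ℕ => decide ((odL σ).getD ((evL σ).getD 0 0) 0 = 0)) :=
      (Primrec.eq.comp ((Primrec.list_getD 0).comp o e0) (Primrec.const 0)).decide
    exact (Primrec.cond h1 (Primrec.list_cons.comp (Primrec.cond h2 (Primrec.const 0)
      (Primrec.const 1)) e) (Primrec.const [])).to_comp
  · apply mono_of_seg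
    intro g m n h
    rcases Nat.eq_zero_or_pos m with rfl | hm
    · have h0 : labL (seg g 0) = [] := by
        rw [seg_zero]
        simp [labL, odL]
      rw [h0]
      exact List.nil_prefix
    rw [labL_seg _ _ hm, labL_seg _ _ (by omega)]
    by_cases h1 : g 0 < m / 2
    · have h2 : g 0 < n / 2 := by omega
      rw [if_pos h1, if_pos h2]
      exact (List.prefix_cons_inj _).2 (seg_mono _ (by omega))
    · rw [if_neg h1]; exact List.nil_prefix

theorem maps_labL (f X : ℕ → ℕ) (i : ℕ) (hi : i = if X (f 0) = 0 then 0 else 1) :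
    Maps labL (joinFun f X) (consFun i f) := by
  intro n
  refine ⟨2 * (n + f 0 + 1), ?_⟩
  have h0 : joinFun f X 0 = f 0 := rfl
  have h1 : joinFun f X (2 * f 0 + 1) = X (f 0) := congrFun (odd_join f X) (f 0)
  rw [labL_seg _ _ (by omega), h0, if_pos (by omega), h1, ← hi, evn_join, ← seg_cons]
  exact seg_mono _ (by omega)

/-! ### The theorem -/

theorem sent_baire : Sent (Degrees Space.baire) := by
  classical
  obtain ⟨K, hK1, hK2⟩ := exists_K
  let ff : ℕ → ℕ → ℕ := fun n => el K n (2 * n)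
  let gg : ℕ → ℕ → ℕ := fun n => el K n (2 * n + 1)
  have hf0 : ∀ n, ff n 0 = n := fun n => rfl
  have hg0 : ∀ n, gg n 0 = n := fun n => rfl
  have h1 : ∀ φ, IsFunctional φ → ∀ n m k, Maps φ (joinFun (ff n) (gg m)) (ff k) → k = n := by
    intro φ hφ n m k h
    by_contra hne
    exact hK1 ⟨φ, hφ⟩ n (2 * n) m (2 * m + 1) k (2 * k) (by omega) (by omega) h
  have h2 : ∀ φ, IsFunctional φ → ∀ n m k, Maps φ (joinFun (ff n) (gg m)) (gg k) → k = m := by
    intro φ hφ n m k h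
    by_contra hne
    exact hK1 ⟨φ, hφ⟩ n (2 * n) m (2 * m + 1) k (2 * k + 1) (by omega) (by omega) h
  have hindf : ∀ φ, IsFunctional φ → ∀ n m, Maps φ (ff n) (ff m) → n = m := by
    intro φ hφ n m h
    have h3 : Maps evL (joinFun (ff n) (gg 0)) (ff n) := by
      have := maps_evL (joinFun (ff n) (gg 0))
      rwa [evn_join] at this
    exact (h1 _ (isFunctional_evL.comp hφ) n 0 m (h3.comp hφ h)).symm
  have hindg : ∀ φ, IsFunctional φ → ∀ n m, Maps φ (gg n) (gg m) → n = m := by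
    intro φ hφ n m h
    have h3 : Maps odL (joinFun (ff 0) (gg n)) (gg n) := by
      have := maps_odL (joinFun (ff 0) (gg n))
      rwa [odd_join] at this
    exact (h2 _ (isFunctional_odL.comp hφ) 0 n m (h3.comp hφ h)).symm
  let A := famC ff hf0 Set.univ Set.univ_nonempty
  let G := famC gg hg0 Set.univ Set.univ_nonempty
  let Cs : Set (ℕ → ℕ) := joinSet A.1 G.1 ∩ {h | h 0 ≤ h 1}
  have hCs : ∀ n m, joinFun (ff n) (gg m) ∈ Cs ↔ n ≤ m := by
    intro n m
    constructor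
    · rintro ⟨-, h3⟩
      exact h3
    · intro h3
      exact ⟨⟨_, (mem_fam hf0).2 trivial, _, (mem_fam hg0).2 trivial, rfl⟩, h3⟩
  have hCc : IsClosed Cs := by
    refine (isClosed_joinSet (isClosed_fam _ _) (isClosed_fam _ _)).inter ?_
    have : IsClosed ((fun h : ℕ → ℕ => (h 0, h 1)) ⁻¹' {p : ℕ × ℕ | p.1 ≤ p.2}) :=
      (isClosed_discrete _).preimage ((continuous_apply (A := fun _ : ℕ => ℕ) 0).prodMk
        (continuous_apply (A := fun _ : ℕ => ℕ) 1))
    exact this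
  let C : ClosedSets Space.baire := ⟨Cs, hCc, ⟨_, (hCs 0 0).2 le_rfl⟩, fun _ _ => trivial⟩
  have hC : ∀ n m, deg C ≤ deg (sing (ff n)) ⊔ deg (sing (gg m)) ↔ n ≤ m := by
    intro n m
    rw [deg_sup, deg_le]
    constructor
    · rintro ⟨φ, hφ, h3⟩
      obtain ⟨h, ⟨hh1, hh2⟩, h4⟩ := h3 (joinFun (ff n) (gg m)) ⟨_, rfl, _, rfl, rfl⟩
      obtain ⟨a, ha, b, hb, rfl⟩ := hh1
      obtain ⟨n', rfl⟩ : ∃ n', a = ff n' := ⟨_, ha.2⟩
      obtain ⟨m', rfl⟩ : ∃ m', b = gg m' := ⟨_, hb.2⟩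
      have h5 := maps_evL (joinFun (ff n') (gg m'))
      rw [evn_join] at h5
      have h6 := maps_odL (joinFun (ff n') (gg m'))
      rw [odd_join] at h6
      have h7 := h1 _ (hφ.comp isFunctional_evL) n m n' (h4.comp isFunctional_evL h5)
      have h8 := h2 _ (hφ.comp isFunctional_odL) n m m' (h4.comp isFunctional_odL h6)
      have h9 : n' ≤ m' := hh2
      omega
    · intro h3
      refine medvedevLe_of_subset ?_
      rintro _ ⟨a, rfl, b, rfl, rfl⟩
      exact (hCs n m).2 h3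
  have hA : ∀ d, IsComp d (deg A) ↔ ∃ n, d = deg (sing (ff n)) := isComp_fam hf0 hindf
  have hG : ∀ d, IsComp d (deg G) ↔ ∃ n, d = deg (sing (gg n)) := isComp_fam hg0 hindg
  refine ⟨deg A, deg G, deg C, ⟨_, (hG _).2 ⟨0, rfl⟩⟩, ?_, ?_, ?_, ?_⟩
  · intro f hf
    obtain ⟨n, rfl⟩ := (hA f).1 hf
    exact ⟨_, (hG _).2 ⟨n, rfl⟩, (hC n n).2 le_rfl⟩
  · intro g g' hg hg'
    obtain ⟨m, rfl⟩ := (hG g).1 hg
    obtain ⟨m', rfl⟩ := (hG g').1 hg'
    refine ⟨_, (hG _).2 ⟨max m m', rfl⟩, ?_⟩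
    intro f hf h3
    obtain ⟨n, rfl⟩ := (hA f).1 hf
    rw [hC, hC] at h3
    rw [hC]
    omega
  · intro g hg
    obtain ⟨m, rfl⟩ := (hG g).1 hg
    refine ⟨_, (hA _).2 ⟨m + 1, rfl⟩, ?_⟩
    rw [hC]
    omega
  · intro S hS
    obtain ⟨X, hX1, hX2, hX3⟩ := exists_X (K := K) hK2 (I := {n | S ≤ deg (sing (ff n))}) (by
      intro m
      obtain ⟨f, hf, h3, h4⟩ := hS _ ((hG _).2 ⟨m, rfl⟩)
      obtain ⟨n, rfl⟩ := (hA f).1 hf
      rw [hC] at h4
      exact ⟨n, by omega, h3⟩)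
    have hX4 : ∀ φ, IsFunctional φ → ∀ n m, Maps φ (joinFun (ff n) X) (ff m) → m = n := by
      intro φ hφ n m h
      by_contra hne
      exact hX1 ⟨φ, hφ⟩ n (2 * n) m (2 * m) (by omega) h
    have hU : ({n | X n = 0} : Set ℕ).Nonempty := by
      obtain ⟨n, -, -, h⟩ := hX2 0
      exact ⟨n, h⟩
    have hV : ({n | X n ≠ 0} : Set ℕ).Nonempty := by
      obtain ⟨n, -, -, h⟩ := hX3 0
      exact ⟨n, by rw [Set.mem_ofPred_eq, h]; omega⟩
    refine ⟨deg (sing X), deg (famC ff hf0 _ hU), deg (famC ff hf0 _ hV), irr_sing X, ?_, ?_, ?_⟩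
    · rw [deg_inf, deg_sup, deg_le]
      refine ⟨labL, isFunctional_labL, ?_⟩
      rintro _ ⟨a, ha, b, rfl, rfl⟩
      obtain ⟨n, rfl⟩ : ∃ n', a = ff n' := ⟨_, ha.2⟩
      refine ⟨_, ?_, maps_labL (ff n) b _ rfl⟩
      show _ ∈ meetSet _ _
      by_cases h3 : b n = 0
      · left
        refine ⟨ff n, (mem_fam hf0).2 h3, ?_⟩
        rw [hf0, if_pos h3]
      · right
        refine ⟨ff n, (mem_fam hf0).2 h3, ?_⟩
        rw [hf0, if_neg h3]
    · intro g hg
      obtain ⟨m, rfl⟩ := (hG g).1 hg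
      obtain ⟨n, h3, h4, h5⟩ := hX3 m
      refine ⟨deg (sing (ff n)), (hA _).2 ⟨n, rfl⟩, h4, ?_, ?_⟩
      · rw [hC]; omega
      · rw [deg_sup, deg_le]
        rintro ⟨φ, hφ, h6⟩
        obtain ⟨h, hh, h7⟩ := h6 (joinFun (ff n) X) ⟨_, rfl, _, rfl, rfl⟩
        obtain ⟨n', rfl⟩ : ∃ n', h = ff n' := ⟨_, hh.2⟩
        have h8 := hX4 φ hφ n n' h7
        rw [h8] at hh
        have h9 : X n = 0 := (mem_fam (I := {n | X n = 0}) hf0).1 hh
        omega
    · intro g hg
      obtain ⟨m, rfl⟩ := (hG g).1 hg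
      obtain ⟨n, h3, h4, h5⟩ := hX2 m
      refine ⟨deg (sing (ff n)), (hA _).2 ⟨n, rfl⟩, h4, ?_, ?_⟩
      · rw [hC]; omega
      · rw [deg_sup, deg_le]
        rintro ⟨φ, hφ, h6⟩
        obtain ⟨h, hh, h7⟩ := h6 (joinFun (ff n) X) ⟨_, rfl, _, rfl, rfl⟩
        obtain ⟨n', rfl⟩ : ∃ n', h = ff n' := ⟨_, hh.2⟩
        have h8 := hX4 φ hφ n n' h7
        rw [h8] at hh
        have h9 : X n ≠ 0 := (mem_fam (I := {n | X n ≠ 0}) hf0).1 hh
        exact h9 h5

end Pool.Agent.W939.Med
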