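import Pool.Agent.W939.Med.Baire

set_option autoImplicit false

/-! The sentence fails in the lattice of closed subsets of Cantor space. -/

namespace Pool.Agent.W939.Med

theorem isCompact_points : IsCompact (Space.cantor.points) := by
  have : Space.cantor.points = Set.pi Set.univ (fun _ : ℕ => ({0, 1} : Set ℕ)) := by
    ext f
    constructor
    · intro h n _
      rcases h n with h1 | h1 <;> simp [h1]
    · intro h n
      have := h n trivial
      simpa using this
  rw [this]
  exact isCompact_univ_pi fun _ => (Set.toFinite _).isCompact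

theorem agree_eq (a : ℕ → ℕ) (k : ℕ) : {g : ℕ → ℕ | seg g k = seg a k} = Hit (tst (seg a k)) := by
  ext g
  rw [hit_tst, seg_length]
  rfl

/-- an irreducible degree above a closed set is above all neighbourhoods of some point -/
theorem exists_point {f : ClosedSets Space.cantor} (hf : Irr (deg f)) {P : Set (ℕ → ℕ)}
    (hP : IsClosed P) (hP' : P ⊆ Space.cantor.points) (h : MedvedevLe P f.1) :
    ∃ a ∈ P, ∀ k, MedvedevLe (P ∩ {g | seg g k = seg a k}) f.1 := by
  classical
  by_contra hcon
  push Not at hcon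
  have hcon' : ∀ a : ℕ → ℕ, ∃ k, a ∈ P → ¬ MedvedevLe (P ∩ {g | seg g k = seg a k}) f.1 := by
    intro a
    by_cases ha : a ∈ P
    · obtain ⟨k, hk⟩ := hcon a ha
      exact ⟨k, fun _ => hk⟩
    · exact ⟨0, fun h => absurd h ha⟩
  choose k hk using hcon'
  have hPc : IsCompact P := isCompact_points.of_isClosed_subset hP hP'
  obtain ⟨t, ht, hcov⟩ := hPc.elim_nhds_subcover (fun a => {g | seg g (k a) = seg a (k a)})
    (fun a _ => (isOpen_agree a (k a)).mem_nhds rfl)
  have key : ∀ t : Finset (ℕ → ℕ), (∀ a ∈ t, a ∈ P) → ∀ B : Set (ℕ → ℕ), IsClosed B → B ⊆ P →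
      MedvedevLe B f.1 → ¬ B ⊆ ⋃ a ∈ t, {g | seg g (k a) = seg a (k a)} := by
    intro t
    induction t using Finset.induction_on with
    | empty =>
      intro _ B _ _ hB hsub
      have : B = ∅ := by
        apply Set.eq_empty_of_subset_empty
        simpa using hsub
      rw [this] at hB
      exact empty_not_le f.nonempty hB
    | insert a t ha ih =>
      intro ht B hBc hBP hB hsub
      have h1 := irr_split hf (isFunctional_tst (seg a (k a))) hBc
        (fun x hx => hP' (hBP hx)) (fun g _ => dec_tst _ g) hB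
      rw [← agree_eq] at h1
      rcases h1 with h2 | h2
      · refine hk a (ht a (Finset.mem_insert_self a t)) (medvedevLe_trans
          (medvedevLe_of_subset ?_) h2)
        rintro g ⟨hg, hg'⟩
        exact ⟨hBP hg, hg'⟩
      · refine ih (fun b hb => ht b (Finset.mem_insert_of_mem hb)) _ ?_
          (fun g hg => hBP hg.1) h2 ?_
        · exact hBc.inter (isOpen_agree a (k a)).isClosed_compl
        · rintro g ⟨hg, hg'⟩
          have h3 := hsub hg
          rw [Finset.set_biUnion_insert] at h3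
          rcases h3 with h4 | h4
          · exact absurd h4 hg'
          · exact h4
  exact key t ht P hP (fun _ h => h) h hcov

theorem not_sent_cantor : ¬ Sent (Degrees Space.cantor) := by
  classical
  rintro ⟨A, G, C, ⟨g0, hg0⟩, h1, h2, h3, h4⟩
  obtain ⟨A, rfl⟩ := exists_rep A
  -- an enumeration of the components of `G`
  obtain ⟨g, hg⟩ := (countable_comp G).exists_eq_range ⟨g0, hg0⟩
  have hgm : ∀ i, IsComp (g i) G := fun i => by
    have : g i ∈ {g : Degrees Space.cantor | IsComp g G} := by rw [hg]; exact ⟨i, rfl⟩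
    exact this
  have hgs : ∀ d, IsComp d G → ∃ i, g i = d := fun d hd => by
    have : d ∈ {g : Degrees Space.cantor | IsComp g G} := hd
    rw [hg] at this
    exact this
  -- upper bounds of finitely many components of `G`
  have hub : ∀ j, ∃ g'', IsComp g'' G ∧ ∀ f, IsComp f (deg A) → ∀ i ≤ j, C ≤ f ⊔ g i →
      C ≤ f ⊔ g'' := by
    intro j
    induction j with
    | zero =>
      refine ⟨g 0, hgm 0, fun f _ i hi h => ?_⟩
      rw [Nat.le_zero.1 hi] at h
      exact h
    | succ j ih =>
      obtain ⟨g'', h5, h6⟩ := ih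
      obtain ⟨g3, h7, h8⟩ := h2 g'' (g (j + 1)) h5 (hgm _)
      refine ⟨g3, h7, fun f hf i hi h => ?_⟩
      rcases Nat.lt_succ_iff_lt_or_eq.1 (Nat.lt_succ_of_le hi) with h9 | rfl
      · exact h8 f hf (Or.inl (h6 f hf i (by omega) h))
      · exact h8 f hf (Or.inr h)
  have hfj : ∀ j, ∃ f : ClosedSets Space.cantor, IsComp (deg f) (deg A) ∧
      ∀ i ≤ j, ¬ C ≤ deg f ⊔ g i := by
    intro j
    obtain ⟨g'', h5, h6⟩ := hub j
    obtain ⟨f, hf, h7⟩ := h3 g'' h5
    obtain ⟨f, rfl⟩ := exists_rep f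
    exact ⟨f, hf, fun i hi h => h7 (h6 _ hf i hi h)⟩
  choose f hf hfC using hfj
  -- every component of `A` occurs finitely often
  have hfin : ∀ d, IsComp d (deg A) → ∃ N, ∀ j, N ≤ j → deg (f j) ≠ d := by
    intro d hd
    obtain ⟨g', hg', h5⟩ := h1 d hd
    obtain ⟨i, rfl⟩ := hgs g' hg'
    refine ⟨i, fun j hj h => ?_⟩
    rw [← h] at h5
    exact hfC j i hj h5
  -- representation of the components
  have hθ := fun j => exists_repr (hf j)
  choose θ hθ using hθ
  let P : ℕ → Set (ℕ → ℕ) := fun j => A.1 ∩ Hit (θ j)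
  have hPc : ∀ j, IsClosed (P j) := fun j => isClosed_inter_Hit (hθ j).1 A.closed (hθ j).2.1
  have hPp : ∀ j, P j ⊆ Space.cantor.points := fun j x hx => A.subset hx.1
  have ha := fun j => exists_point (hf j).1 (hPc j) (hPp j) (hθ j).2.2.2.1
  choose a haP ha using ha
  -- a limit point
  have hAc : IsCompact A.1 := isCompact_points.of_isClosed_subset A.closed A.subset
  obtain ⟨b, hb, σ, hσ, hlim⟩ := hAc.tendsto_subseq (fun j => (haP j).1)
  -- `a (σ i)` agrees with `b` up to any given length for almost all `i`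
  have hagree : ∀ k, ∃ N, ∀ i, N ≤ i → seg (a (σ i)) k = seg b k := by
    intro k
    have h5 := hlim.eventually ((isOpen_agree b k).mem_nhds rfl)
    obtain ⟨N, hN⟩ := Filter.eventually_atTop.1 h5
    exact ⟨N, fun i hi => hN i hi⟩
  choose N hN using hagree
  -- choose a further subsequence
  let M : ℕ → ℕ := fun i => σ (max i (N i))
  have hMa : ∀ i, seg (a (M i)) i = seg b i := fun i => hN i _ (le_max_right _ _)
  have hMge : ∀ i, i ≤ M i := fun i => (le_max_left i (N i)).trans (hσ.id_le _)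
  let Q : ℕ → Set (ℕ → ℕ) := fun i => P (M i) ∩ {g | seg g i = seg b i}
  have hQf : ∀ i, MedvedevLe (Q i) (f (M i)).1 := by
    intro i
    have := ha (M i) i
    rw [hMa i] at this
    exact this
  have hQc : ∀ i, IsClosed (Q i) := fun i => (hPc _).inter (isClosed_agree b i)
  let Ss : Set (ℕ → ℕ) := {b} ∪ ⋃ i, Q i
  have hSc : IsClosed Ss := by
    rw [← isOpen_compl_iff, isOpen_iff_forall_mem_open]
    intro y hy
    have hyb : y ≠ b := fun h => hy (Or.inl h)
    obtain ⟨k, hk⟩ : ∃ k, seg y k ≠ seg b k := by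
      by_contra h5
      push Not at h5
      apply hyb
      funext i
      exact seg_eq_iff.1 (h5 (i + 1)) i (Nat.lt_succ_self i)
    refine ⟨{g | seg g k = seg y k} ∩ ⋂ i ∈ Finset.range k, (Q i)ᶜ, ?_, ?_, ?_⟩
    · rintro g ⟨hg, hg'⟩ (rfl | hg'')
      · exact hk hg.symm
      · obtain ⟨i, hi⟩ := Set.mem_iUnion.1 hg''
        by_cases hik : i < k
        · exact (Set.mem_iInter₂.1 hg' i (Finset.mem_range.2 hik)) hi
        · have h5 : seg g i = seg b i := hi.2
          have h6 : seg g k = seg b k := by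
            rw [seg_eq_iff] at h5 ⊢
            exact fun j hj => h5 j (by omega)
          rw [Set.mem_ofPred_eq] at hg
          exact hk (hg.symm.trans h6)
    · exact (isOpen_agree y k).inter (isOpen_biInter_finset fun i _ => (hQc i).isOpen_compl)
    · refine ⟨rfl, Set.mem_iInter₂.2 fun i _ hi => hy (Or.inr (Set.mem_iUnion.2 ⟨i, hi⟩))⟩
  have hSp : Ss ⊆ Space.cantor.points := by
    rintro g (rfl | hg)
    · exact A.subset hb
    · obtain ⟨i, hi⟩ := Set.mem_iUnion.1 hg
      exact hPp _ hi.1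
  have hSA : Ss ⊆ A.1 := by
    rintro g (rfl | hg)
    · exact hb
    · obtain ⟨i, hi⟩ := Set.mem_iUnion.1 hg
      exact hi.1.1
  let S : ClosedSets Space.cantor := ⟨Ss, hSc, ⟨b, Or.inl rfl⟩, hSp⟩
  have hSf : ∀ i, deg S ≤ deg (f (M i)) := by
    intro i
    rw [deg_le]
    exact medvedevLe_trans (medvedevLe_of_subset fun g hg => Or.inr (Set.mem_iUnion.2 ⟨i, hg⟩))
      (hQf i)
  -- the components of `A` above `S`
  have hSd : ∀ d, IsComp d (deg A) → deg S ≤ d → ∃ i, d = deg (f (M i)) := by
    intro d hd hS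
    obtain ⟨e, rfl⟩ := exists_rep d
    obtain ⟨η, hη, hη1, hη2, hη3, hη4⟩ := exists_repr hd
    rw [deg_le] at hS
    have h5 : MedvedevLe (Ss ∩ Hit η) e.1 := by
      rcases irr_split hd.1 hη hSc hSp (fun g hg => hη1 (hSA hg)) hS with h5 | h5
      · exact h5
      · exfalso
        exact hη4 (medvedevLe_trans (medvedevLe_of_subset fun g hg => ⟨hSA hg.1, hg.2⟩) h5)
    have hbη : b ∉ Hit η := by
      rintro ⟨k, τ, hk⟩
      obtain ⟨N', hN'⟩ := hfin _ hd
      have h6 := hMge (max k N')
      have h7 : deg e ≤ deg (f (M (max k N'))) := by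
        rw [deg_le]
        refine medvedevLe_trans (medvedevLe_trans hη2 (medvedevLe_of_subset ?_)) (hQf (max k N'))
        rintro g ⟨hg, hg'⟩
        refine ⟨hg.1, k, τ, ?_⟩
        have h8 : seg g k = seg b k := by
          rw [Set.mem_ofPred_eq, seg_eq_iff] at hg'
          exact seg_eq_iff.2 fun j hj => hg' j (lt_of_lt_of_le hj (le_max_left _ _))
        rw [h8]
        exact hk
      have h8 := comp_incomp (hf _) hd h7
      exact hN' _ (le_trans (le_max_right k N') h6) h8
    -- a neighbourhood of `b` disjoint from `Hit η`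
    have hcl : IsClosed (A.1 ∩ Hit η) := isClosed_inter_Hit hη A.closed hη1
    obtain ⟨k, hk⟩ : ∃ k, ∀ g ∈ A.1 ∩ Hit η, seg g k ≠ seg b k := by
      obtain ⟨m, hm⟩ := hη1 hb
      obtain ⟨c, τ, hc⟩ := List.exists_cons_of_ne_nil hm
      refine ⟨m, ?_⟩
      rintro g ⟨-, hg⟩ h6
      rw [← h6] at hc
      have h7 := (hit_not hη hc).1 hg
      rw [h7, h6] at hc
      exact hbη ⟨m, τ, hc⟩
    have key : ∀ n, ∀ B : Set (ℕ → ℕ), IsClosed B → B ⊆ A.1 → MedvedevLe B e.1 →
        B ⊆ (⋃ i ∈ Finset.range n, P (M i)) → ∃ i, deg (f (M i)) ≤ deg e := by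
      intro n
      induction n with
      | zero =>
        intro B _ _ hB hsub
        have : B = ∅ := by
          apply Set.eq_empty_of_subset_empty
          simpa using hsub
        rw [this] at hB
        exact absurd hB (empty_not_le e.nonempty)
      | succ n ih =>
        intro B hBc hBA hB hsub
        rcases irr_split hd.1 (hθ (M n)).1 hBc (fun x hx => A.subset (hBA hx))
          (fun g hg => (hθ (M n)).2.1 (hBA hg)) hB with h6 | h6
        · refine ⟨n, ?_⟩
          rw [deg_le]
          refine medvedevLe_trans (medvedevLe_trans (hθ (M n)).2.2.1 (medvedevLe_of_subset ?_)) h6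
          rintro g ⟨hg, hg'⟩
          exact ⟨hBA hg, hg'⟩
        · refine ih _ (isClosed_diff_Hit _ hBc) (fun g hg => hBA hg.1) h6 ?_
          rintro g ⟨hg, hg'⟩
          have h7 := hsub hg
          rw [Set.mem_iUnion₂] at h7 ⊢
          obtain ⟨i, hi, h8⟩ := h7
          rcases Nat.lt_succ_iff_lt_or_eq.1 (Finset.mem_range.1 hi) with h9 | rfl
          · exact ⟨i, Finset.mem_range.2 h9, h8⟩
          · exact absurd h8.2 hg'
    have h6 := key k (Ss ∩ Hit η) (isClosed_inter_Hit hη hSc (fun g hg => hη1 (hSA hg)))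
      (fun g hg => hSA hg.1) h5 (by
        rintro g ⟨hg, hg'⟩
        have h7 := hk g ⟨hSA hg, hg'⟩
        rcases hg with rfl | hg
        · exact absurd rfl h7
        · obtain ⟨i, hi⟩ := Set.mem_iUnion.1 hg
          rw [Set.mem_iUnion₂]
          refine ⟨i, Finset.mem_range.2 ?_, hi.1⟩
          by_contra h8
          apply h7
          have h9 : seg g i = seg b i := hi.2
          rw [seg_eq_iff] at h9 ⊢
          exact fun j hj => h9 j (by omega))
    obtain ⟨i, hi⟩ := h6
    exact ⟨i, comp_incomp hd (hf _) hi⟩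
  -- apply the last clause of the sentence
  obtain ⟨x, U, V, hx, hUV, hU, hV⟩ := h4 (deg S) (by
    intro g' hg'
    obtain ⟨i, rfl⟩ := hgs g' hg'
    exact ⟨deg (f (M i)), hf _, hSf i, hfC (M i) i (hMge i)⟩)
  obtain ⟨x, rfl⟩ := exists_rep x
  obtain ⟨U, rfl⟩ := exists_rep U
  obtain ⟨V, rfl⟩ := exists_rep V
  rw [deg_inf, deg_sup, deg_le] at hUV
  obtain ⟨φ, hφ, hφ1⟩ := hUV
  obtain ⟨ξ, hξ, hξ1⟩ := exists_point hx x.closed x.subset (medvedevLe_refl x.1)
  obtain ⟨u, hu, hu1⟩ := hφ1 (joinFun b ξ) ⟨b, hb, ξ, hξ, rfl⟩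
  -- the finite information used
  obtain ⟨m, hm⟩ := hu1 1
  -- general conclusion
  have hfinal : ∀ W : ClosedSets Space.cantor, (∀ y ∈ meetSet U.1 V.1, y 0 = u 0 → tl y ∈ W.1) →
      (∀ g', IsComp g' G → ∃ d, IsComp d (deg A) ∧ deg S ≤ d ∧ ¬ C ≤ d ⊔ g' ∧
        ¬ deg W ≤ d ⊔ deg x) → False := by
    intro W hW hWg
    have h5 : ∀ i, m ≤ i → deg W ≤ deg (f (M i)) ⊔ deg x := by
      intro i hi
      rw [deg_sup, deg_le]
      have h6 : MedvedevLe (joinSet (Q i) (x.1 ∩ {g | seg g m = seg ξ m}))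
          ((f (M i)).join x).1 := by
        apply join_le
        · exact medvedevLe_trans (hQf i) (le_join_left _ _)
        · exact medvedevLe_trans (hξ1 m) (le_join_right _ _)
      refine medvedevLe_trans ⟨_, isFunctional_tail hφ, ?_⟩ h6
      rintro _ ⟨a', ha', ξ', hξ', rfl⟩
      obtain ⟨y, hy, hy1⟩ := hφ1 (joinFun a' ξ') ⟨a', ha'.1.1, ξ', hξ'.1, rfl⟩
      refine ⟨tl y, hW y hy ?_, maps_tail hy1⟩
      have h7 : seg (joinFun a' ξ') m = seg (joinFun b ξ) m := by
        apply seg_join_congr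
        · intro j hj
          have : seg a' i = seg b i := ha'.2
          exact seg_eq_iff.1 this j (by omega)
        · exact seg_eq_iff.1 hξ'.2
      rw [← h7] at hm
      have h8 := hy1.out hφ m
      rw [h8] at hm
      obtain ⟨τ, hτ⟩ := hm
      have h9 : 0 < (φ (seg (joinFun a' ξ') m)).length := by
        have := congrArg List.length hτ
        rw [List.length_append, seg_length, seg_length] at this
        omega
      have h10 := congrArg (fun l => l[0]?) hτ
      rw [seg_getElem? _ _ _ h9, List.getElem?_append_left (by rw [seg_length]; omega),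
        seg_getElem? _ _ _ (by omega)] at h10
      exact (Option.some.inj h10).symm
    -- a bound for the finitely many exceptions
    have hbd : ∀ n, ∃ g', IsComp g' G ∧ ∀ i < n, C ≤ deg (f (M i)) ⊔ g' := by
      intro n
      induction n with
      | zero => exact ⟨g0, hg0, fun i hi => absurd hi (Nat.not_lt_zero i)⟩
      | succ n ih =>
        obtain ⟨g', hg', h6⟩ := ih
        obtain ⟨g'', hg'', h7⟩ := h1 _ (hf (M n))
        obtain ⟨g3, hg3, h8⟩ := h2 g' g'' hg' hg''
        refine ⟨g3, hg3, fun i hi => ?_⟩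
        rcases Nat.lt_succ_iff_lt_or_eq.1 hi with h9 | rfl
        · exact h8 _ (hf _) (Or.inl (h6 i h9))
        · exact h8 _ (hf _) (Or.inr h7)
    obtain ⟨g', hg', h6⟩ := hbd m
    obtain ⟨d, hd, hSd', hCd, hWd⟩ := hWg g' hg'
    obtain ⟨i, rfl⟩ := hSd d hd hSd'
    by_cases hi : i < m
    · exact hCd (h6 i hi)
    · exact hWd (h5 i (by omega))
  rcases mem_meetSet.1 hu with ⟨h5, -⟩ | ⟨h5, -⟩
  · refine hfinal U ?_ hU
    intro y hy hy0
    rcases mem_meetSet.1 hy with h6 | h6
    · exact h6.2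
    · rw [h6.1, h5] at hy0; exact absurd hy0 (by norm_num)
  · refine hfinal V ?_ hV
    intro y hy hy0
    rcases mem_meetSet.1 hy with h6 | h6
    · rw [h6.1, h5] at hy0; exact absurd hy0 (by norm_num)
    · exact h6.2

end Pool.Agent.W939.Med
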