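import Mathlib

set_option autoImplicit false

/-! Medvedev degrees of nonempty closed subsets of Baire space and of Cantor space. -/

namespace Pool.Agent.W939.Med

/-- The string of the first `m` values of `g`. -/
def seg (g : ℕ → ℕ) (m : ℕ) : List ℕ := (List.range m).map g

/-- `φ` presents a Turing functional: it is a computable monotone map on finite strings. -/
def IsFunctional (φ : List ℕ → List ℕ) : Prop :=
  Computable φ ∧ ∀ σ τ : List ℕ, σ <+: τ → φ σ <+: φ τ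

/-- The Turing functional presented by `φ` is total on the oracle `g`, with value `f`: the outputs
`φ (seg g m)` are initial segments of `f` of unbounded length. -/
def Maps (φ : List ℕ → List ℕ) (g f : ℕ → ℕ) : Prop :=
  ∀ n : ℕ, ∃ m : ℕ, seg f n <+: φ (seg g m)

/-- Medvedev reducibility `A ≤_M B`: some Turing functional maps every element of `B` to an
element of `A`. -/
def MedvedevLe (A B : Set (ℕ → ℕ)) : Prop :=
  ∃ φ : List ℕ → List ℕ, IsFunctional φ ∧ ∀ g ∈ B, ∃ f ∈ A, Maps φ g f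

/-! ### Segments and functionals -/

theorem seg_length (g : ℕ → ℕ) (m : ℕ) : (seg g m).length = m := by simp [seg]

theorem seg_getElem? (g : ℕ → ℕ) (m i : ℕ) (h : i < m) : (seg g m)[i]? = some (g i) := by
  simp [seg, h]

theorem seg_zero (g : ℕ → ℕ) : seg g 0 = [] := rfl

theorem seg_getD (g : ℕ → ℕ) (m i : ℕ) (h : i < m) : (seg g m).getD i 0 = g i := by
  rw [List.getD_eq_getElem?_getD, seg_getElem? g m i h]; rfl

theorem seg_take (g : ℕ → ℕ) {n m : ℕ} (h : n ≤ m) : (seg g m).take n = seg g n := by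
  unfold seg
  rw [← List.map_take, List.take_range, min_eq_left h]

theorem seg_mono (g : ℕ → ℕ) {n m : ℕ} (h : n ≤ m) : seg g n <+: seg g m := by
  rw [← seg_take g h]; exact List.take_prefix _ _

theorem seg_congr {g g' : ℕ → ℕ} {m : ℕ} (h : ∀ i < m, g i = g' i) : seg g m = seg g' m := by
  unfold seg
  apply List.map_congr_left
  intro i hi
  exact h i (List.mem_range.1 hi)

theorem seg_eq_iff {g g' : ℕ → ℕ} {m : ℕ} : seg g m = seg g' m ↔ ∀ i < m, g i = g' i := by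
  refine ⟨fun h i hi => ?_, seg_congr⟩
  have h1 := seg_getElem? g m i hi
  rw [h, seg_getElem? g' m i hi] at h1
  exact (Option.some.inj h1).symm

theorem seg_succ (g : ℕ → ℕ) (m : ℕ) : seg g (m + 1) = g 0 :: seg (fun i => g (i + 1)) m := by
  unfold seg
  rw [List.range_succ_eq_map, List.map_cons, List.map_map]
  rfl

/-- a string which is a prefix of `seg f n` is a segment -/
theorem prefix_seg {f : ℕ → ℕ} {n : ℕ} {σ : List ℕ} (h : σ <+: seg f n) :
    σ = seg f σ.length := by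
  have h1 := h.length_le
  rw [seg_length] at h1
  rw [← seg_take f h1]
  exact (List.prefix_iff_eq_take.1 h)

/-- the value of a functional is unique, and everything it outputs is correct -/
theorem Maps.out {φ : List ℕ → List ℕ} (hφ : IsFunctional φ) {g f : ℕ → ℕ} (h : Maps φ g f)
    (m : ℕ) : φ (seg g m) = seg f (φ (seg g m)).length := by
  obtain ⟨k, hk⟩ := h (φ (seg g m)).length
  have h1 : φ (seg g m) <+: φ (seg g (max m k)) := hφ.2 _ _ (seg_mono g (le_max_left _ _))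
  have h2 : seg f (φ (seg g m)).length <+: φ (seg g (max m k)) :=
    hk.trans (hφ.2 _ _ (seg_mono g (le_max_right _ _)))
  have h3 := List.prefix_of_prefix_length_le h1 h2 (by rw [seg_length])
  exact h3.eq_of_length (by rw [seg_length])

theorem Maps.unique {φ : List ℕ → List ℕ} (hφ : IsFunctional φ) {g f f' : ℕ → ℕ}
    (h : Maps φ g f) (h' : Maps φ g f') : f = f' := by
  funext i
  obtain ⟨m, hm⟩ := h (i + 1)
  have h1 := h.out hφ m
  have h2 := h'.out hφ m
  have h3 := hm.length_le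
  rw [seg_length] at h3
  have h4 := seg_getElem? f _ i (by omega : i < (φ (seg g m)).length)
  have h5 := seg_getElem? f' _ i (by omega : i < (φ (seg g m)).length)
  rw [← h1] at h4
  rw [← h2] at h5
  rw [h4] at h5
  exact Option.some.inj h5

theorem Maps.comp {φ ψ : List ℕ → List ℕ} (hψ : IsFunctional ψ)
    {g f e : ℕ → ℕ} (h : Maps φ g f) (h' : Maps ψ f e) : Maps (fun σ => ψ (φ σ)) g e := by
  intro n
  obtain ⟨k, hk⟩ := h' n
  obtain ⟨m, hm⟩ := h k
  exact ⟨m, hk.trans (hψ.2 _ _ hm)⟩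

theorem IsFunctional.comp {φ ψ : List ℕ → List ℕ} (hφ : IsFunctional φ) (hψ : IsFunctional ψ) :
    IsFunctional (fun σ => ψ (φ σ)) :=
  ⟨hψ.1.comp hφ.1, fun σ τ h => hψ.2 _ _ (hφ.2 σ τ h)⟩

theorem isFunctional_id : IsFunctional (fun σ => σ) := ⟨Computable.id, fun _ _ h => h⟩

theorem maps_id (g : ℕ → ℕ) : Maps (fun σ => σ) g g := fun n => ⟨n, List.prefix_refl _⟩

theorem medvedevLe_refl (A : Set (ℕ → ℕ)) : MedvedevLe A A :=
  ⟨fun σ => σ, isFunctional_id, fun g hg => ⟨g, hg, maps_id g⟩⟩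

theorem medvedevLe_trans {A B C : Set (ℕ → ℕ)} (h1 : MedvedevLe A B) (h2 : MedvedevLe B C) :
    MedvedevLe A C := by
  obtain ⟨φ, hφ, h3⟩ := h1
  obtain ⟨ψ, hψ, h4⟩ := h2
  refine ⟨fun σ => φ (ψ σ), hψ.comp hφ, fun g hg => ?_⟩
  obtain ⟨f, hf, h5⟩ := h4 g hg
  obtain ⟨e, he, h6⟩ := h3 f hf
  exact ⟨e, he, h5.comp hφ h6⟩

theorem medvedevLe_of_subset {A B : Set (ℕ → ℕ)} (h : B ⊆ A) : MedvedevLe A B :=
  ⟨fun σ => σ, isFunctional_id, fun g hg => ⟨g, h hg, maps_id g⟩⟩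

/-! ### Joins and meets -/

/-- `f ⊕ g` -/
def joinFun (f g : ℕ → ℕ) (n : ℕ) : ℕ := if n % 2 = 0 then f (n / 2) else g (n / 2)

/-- `i ⌢ f` -/
def consFun (i : ℕ) (f : ℕ → ℕ) (n : ℕ) : ℕ := Nat.casesOn n i f

/-- The set `{f ⊕ g : f ∈ A, g ∈ B}`. -/
def joinSet (A B : Set (ℕ → ℕ)) : Set (ℕ → ℕ) := {h | ∃ f ∈ A, ∃ g ∈ B, h = joinFun f g}

/-- The set `{0 ⌢ f : f ∈ A} ∪ {1 ⌢ g : g ∈ B}`. -/
def meetSet (A B : Set (ℕ → ℕ)) : Set (ℕ → ℕ) :=
  {h | (∃ f ∈ A, h = consFun 0 f) ∨ ∃ g ∈ B, h = consFun 1 g}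

/-- even part -/
def evn (h : ℕ → ℕ) (n : ℕ) : ℕ := h (2 * n)
/-- odd part -/
def odd (h : ℕ → ℕ) (n : ℕ) : ℕ := h (2 * n + 1)
/-- tail -/
def tl (h : ℕ → ℕ) (n : ℕ) : ℕ := h (n + 1)

theorem evn_join (f g : ℕ → ℕ) : evn (joinFun f g) = f := by
  funext n; simp [evn, joinFun]

theorem odd_join (f g : ℕ → ℕ) : odd (joinFun f g) = g := by
  funext n
  have h1 : (2 * n + 1) % 2 = 1 := by omega
  have h2 : (2 * n + 1) / 2 = n := by omega
  simp [odd, joinFun, h1, h2]

theorem join_evn_odd (h : ℕ → ℕ) : joinFun (evn h) (odd h) = h := by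
  funext n
  unfold joinFun evn odd
  split_ifs with h1
  · congr 1; omega
  · congr 1; omega

theorem tl_cons (i : ℕ) (f : ℕ → ℕ) : tl (consFun i f) = f := rfl

theorem cons_zero (i : ℕ) (f : ℕ → ℕ) : consFun i f 0 = i := rfl

theorem cons_succ (i : ℕ) (f : ℕ → ℕ) (n : ℕ) : consFun i f (n + 1) = f n := rfl

theorem cons_tl (h : ℕ → ℕ) : consFun (h 0) (tl h) = h := by
  funext n; cases n <;> rfl

theorem mem_joinSet {A B : Set (ℕ → ℕ)} {h : ℕ → ℕ} :
    h ∈ joinSet A B ↔ evn h ∈ A ∧ odd h ∈ B := by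
  constructor
  · rintro ⟨f, hf, g, hg, rfl⟩
    rw [evn_join, odd_join]; exact ⟨hf, hg⟩
  · rintro ⟨h1, h2⟩
    exact ⟨_, h1, _, h2, (join_evn_odd h).symm⟩

theorem mem_meetSet {A B : Set (ℕ → ℕ)} {h : ℕ → ℕ} :
    h ∈ meetSet A B ↔ (h 0 = 0 ∧ tl h ∈ A) ∨ (h 0 = 1 ∧ tl h ∈ B) := by
  constructor
  · rintro (⟨f, hf, rfl⟩ | ⟨g, hg, rfl⟩)
    · exact Or.inl ⟨rfl, hf⟩
    · exact Or.inr ⟨rfl, hg⟩
  · rintro (⟨h1, h2⟩ | ⟨h1, h2⟩)
    · refine Or.inl ⟨_, h2, ?_⟩
      rw [← h1, cons_tl]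
    · refine Or.inr ⟨_, h2, ?_⟩
      rw [← h1, cons_tl]

theorem continuous_evn : Continuous evn :=
  continuous_pi fun n => continuous_apply (2 * n)
theorem continuous_odd : Continuous odd :=
  continuous_pi fun n => continuous_apply (2 * n + 1)
theorem continuous_tl : Continuous tl :=
  continuous_pi fun n => continuous_apply (n + 1)

theorem isClosed_joinSet {A B : Set (ℕ → ℕ)} (hA : IsClosed A) (hB : IsClosed B) :
    IsClosed (joinSet A B) := by
  have : joinSet A B = evn ⁻¹' A ∩ odd ⁻¹' B := by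
    ext h; exact mem_joinSet
  rw [this]
  exact (hA.preimage continuous_evn).inter (hB.preimage continuous_odd)

theorem isClosed_zero (i : ℕ) : IsClosed {h : ℕ → ℕ | h 0 = i} :=
  isClosed_eq (continuous_apply 0) continuous_const

theorem isClosed_meetSet {A B : Set (ℕ → ℕ)} (hA : IsClosed A) (hB : IsClosed B) :
    IsClosed (meetSet A B) := by
  have : meetSet A B = ({h | h 0 = 0} ∩ tl ⁻¹' A) ∪ ({h | h 0 = 1} ∩ tl ⁻¹' B) := by
    ext h; exact mem_meetSet
  rw [this]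
  exact ((isClosed_zero 0).inter (hA.preimage continuous_tl)).union
    ((isClosed_zero 1).inter (hB.preimage continuous_tl))

end Pool.Agent.W939.Med
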