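import Pool.Agent.W939.Med.Defs

set_option autoImplicit false

/-! Concrete functionals on strings. -/

namespace Pool.Agent.W939.Med

theorem list_eq_seg (τ : List ℕ) : τ = seg (fun i => τ.getD i 0) τ.length := by
  apply List.ext_getElem?
  intro i
  by_cases h : i < τ.length
  · rw [seg_getElem? _ _ _ h, List.getD_eq_getElem?_getD, List.getElem?_eq_getElem h]; rfl
  · rw [List.getElem?_eq_none (by omega), List.getElem?_eq_none (by rw [seg_length]; omega)]

theorem mono_of_seg {φ : List ℕ → List ℕ}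
    (h : ∀ (g : ℕ → ℕ) (m n : ℕ), m ≤ n → φ (seg g m) <+: φ (seg g n)) :
    ∀ σ τ : List ℕ, σ <+: τ → φ σ <+: φ τ := by
  intro σ τ hst
  have h1 := list_eq_seg τ
  have h2 : σ = seg (fun i => τ.getD i 0) σ.length := by
    have h3 : σ <+: seg (fun i => τ.getD i 0) τ.length := by rw [← h1]; exact hst
    exact prefix_seg h3
  have h4 := h (fun i => τ.getD i 0) σ.length τ.length hst.length_le
  rw [← h1, ← h2] at h4
  exact h4

/-- even entries -/
def evL (σ : List ℕ) : List ℕ := (List.range ((σ.length + 1) / 2)).map (fun i => σ.getD (2 * i) 0)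
/-- odd entries -/
def odL (σ : List ℕ) : List ℕ := (List.range (σ.length / 2)).map (fun i => σ.getD (2 * i + 1) 0)
/-- interleaving -/
def pairL (σ τ : List ℕ) : List ℕ :=
  (List.range (2 * min σ.length τ.length)).map
    (fun i => bif decide (i % 2 = 0) then σ.getD (i / 2) 0 else τ.getD (i / 2) 0)

theorem evL_seg (h : ℕ → ℕ) (m : ℕ) : evL (seg h m) = seg (evn h) ((m + 1) / 2) := by
  unfold evL
  rw [seg_length]
  conv_rhs => unfold seg
  apply List.map_congr_left
  intro i hi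
  have := List.mem_range.1 hi
  rw [seg_getD _ _ _ (by omega)]
  rfl

theorem odL_seg (h : ℕ → ℕ) (m : ℕ) : odL (seg h m) = seg (odd h) (m / 2) := by
  unfold odL
  rw [seg_length]
  conv_rhs => unfold seg
  apply List.map_congr_left
  intro i hi
  have := List.mem_range.1 hi
  rw [seg_getD _ _ _ (by omega)]
  rfl

theorem pairL_seg (f g : ℕ → ℕ) (a b : ℕ) :
    pairL (seg f a) (seg g b) = seg (joinFun f g) (2 * min a b) := by
  unfold pairL
  rw [seg_length, seg_length]
  conv_rhs => unfold seg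
  apply List.map_congr_left
  intro i hi
  have := List.mem_range.1 hi
  unfold joinFun
  by_cases h : i % 2 = 0
  · rw [if_pos h, decide_eq_true h, cond_true, seg_getD _ _ _ (by omega)]
  · rw [if_neg h, decide_eq_false h, cond_false, seg_getD _ _ _ (by omega)]

theorem evL_primrec : Primrec evL := by
  unfold evL
  refine Primrec.list_map ?_ ?_
  · exact Primrec.list_range.comp (Primrec.nat_div.comp
      (Primrec.succ.comp Primrec.list_length) (Primrec.const 2))
  · exact (Primrec.list_getD 0).comp Primrec.fst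
      (Primrec.nat_mul.comp (Primrec.const 2) Primrec.snd)

theorem odL_primrec : Primrec odL := by
  unfold odL
  refine Primrec.list_map ?_ ?_
  · exact Primrec.list_range.comp (Primrec.nat_div.comp Primrec.list_length (Primrec.const 2))
  · exact (Primrec.list_getD 0).comp Primrec.fst
      (Primrec.succ.comp (Primrec.nat_mul.comp (Primrec.const 2) Primrec.snd))

theorem pairL_primrec : Primrec₂ pairL := by
  unfold pairL
  refine Primrec.list_map (f := fun p : List ℕ × List ℕ => List.range (2 * min p.1.length p.2.length))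
    (g := fun (p : List ℕ × List ℕ) (i : ℕ) => bif decide (i % 2 = 0) then p.1.getD (i / 2) 0
      else p.2.getD (i / 2) 0) ?_ ?_
  · exact Primrec.list_range.comp (Primrec.nat_mul.comp (Primrec.const 2)
      (Primrec.nat_min.comp (Primrec.list_length.comp Primrec.fst)
        (Primrec.list_length.comp Primrec.snd)))
  · have i : Primrec (fun q : (List ℕ × List ℕ) × ℕ => q.2) := Primrec.snd
    have a1 := (Primrec.eq.comp (Primrec.nat_mod.comp i (Primrec.const 2))
      (Primrec.const 0)).decide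
    have a2 := Primrec.nat_div.comp i (Primrec.const 2)
    have a3 := (Primrec.list_getD 0).comp (Primrec.fst.comp (Primrec.fst (α := List ℕ × List ℕ)
      (β := ℕ))) a2
    have a4 := (Primrec.list_getD 0).comp (Primrec.snd.comp (Primrec.fst (α := List ℕ × List ℕ)
      (β := ℕ))) a2
    exact Primrec.cond a1 a3 a4

theorem isFunctional_evL : IsFunctional evL :=
  ⟨evL_primrec.to_comp, mono_of_seg fun g m n h => by
    rw [evL_seg, evL_seg]; exact seg_mono _ (by omega)⟩

theorem isFunctional_odL : IsFunctional odL :=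
  ⟨odL_primrec.to_comp, mono_of_seg fun g m n h => by
    rw [odL_seg, odL_seg]; exact seg_mono _ (by omega)⟩

theorem maps_evL (h : ℕ → ℕ) : Maps evL h (evn h) := fun n =>
  ⟨2 * n, by rw [evL_seg]; exact seg_mono _ (by omega)⟩

theorem maps_odL (h : ℕ → ℕ) : Maps odL h (odd h) := fun n =>
  ⟨2 * n, by rw [odL_seg]; exact seg_mono _ (by omega)⟩

theorem pairL_mono {σ σ' τ τ' : List ℕ} (h1 : σ <+: σ') (h2 : τ <+: τ') :
    pairL σ τ <+: pairL σ' τ' := by
  have a1 := list_eq_seg σ'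
  have a2 := list_eq_seg τ'
  have b1 : σ = seg (fun i => σ'.getD i 0) σ.length := prefix_seg (n := σ'.length) (by
    rw [← a1]; exact h1)
  have b2 : τ = seg (fun i => τ'.getD i 0) τ.length := prefix_seg (n := τ'.length) (by
    rw [← a2]; exact h2)
  rw [a1, a2, b1, b2, pairL_seg, pairL_seg]
  apply seg_mono
  have := h1.length_le
  have := h2.length_le
  omega

theorem isFunctional_pairL {φ ψ : List ℕ → List ℕ} (hφ : IsFunctional φ) (hψ : IsFunctional ψ) :
    IsFunctional (fun σ => pairL (φ σ) (ψ σ)) :=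
  ⟨pairL_primrec.to_comp.comp hφ.1 hψ.1, fun σ τ h => pairL_mono (hφ.2 _ _ h) (hψ.2 _ _ h)⟩

theorem maps_pairL {φ ψ : List ℕ → List ℕ} (hφ : IsFunctional φ) (hψ : IsFunctional ψ)
    {g f f' : ℕ → ℕ} (h : Maps φ g f) (h' : Maps ψ g f') :
    Maps (fun σ => pairL (φ σ) (ψ σ)) g (joinFun f f') := by
  intro n
  obtain ⟨a, ha⟩ := h n
  obtain ⟨b, hb⟩ := h' n
  refine ⟨max a b, ?_⟩
  have h1 := pairL_mono (ha.trans (hφ.2 _ _ (seg_mono g (le_max_left a b))))
    (hb.trans (hψ.2 _ _ (seg_mono g (le_max_right a b))))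
  rw [pairL_seg] at h1
  exact (seg_mono _ (by omega)).trans h1

/-- prepending a number -/
theorem isFunctional_cons (i : ℕ) : IsFunctional (fun σ => i :: σ) :=
  ⟨(Primrec.list_cons.comp (Primrec.const i) Primrec.id).to_comp,
    fun _ _ h => (List.prefix_cons_inj i).2 h⟩

theorem seg_cons (i : ℕ) (f : ℕ → ℕ) (m : ℕ) : seg (consFun i f) (m + 1) = i :: seg f m := by
  rw [seg_succ]; rfl

theorem maps_cons (i : ℕ) (f : ℕ → ℕ) : Maps (fun σ => i :: σ) f (consFun i f) := fun n =>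
  ⟨n, by
    show _ <+: i :: seg f n
    rw [← seg_cons]; exact seg_mono _ (Nat.le_succ n)⟩

theorem seg_tail (g : ℕ → ℕ) (m : ℕ) : (seg g m).tail = seg (tl g) (m - 1) := by
  cases m with
  | zero => rfl
  | succ m => rw [seg_succ]; rfl

theorem isFunctional_tail {φ : List ℕ → List ℕ} (hφ : IsFunctional φ) :
    IsFunctional (fun σ => (φ σ).tail) := by
  refine ⟨Primrec.list_tail.to_comp.comp hφ.1, fun σ τ h => ?_⟩
  obtain ⟨ρ, hρ⟩ := hφ.2 σ τ h
  show (φ σ).tail <+: (φ τ).tail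
  rw [← hρ]
  cases φ σ with
  | nil => exact List.nil_prefix
  | cons a l => exact List.prefix_append l ρ

theorem maps_tail {φ : List ℕ → List ℕ} {g f : ℕ → ℕ} (h : Maps φ g f) :
    Maps (fun σ => (φ σ).tail) g (tl f) := by
  intro n
  obtain ⟨m, hm⟩ := h (n + 1)
  refine ⟨m, ?_⟩
  obtain ⟨ρ, hρ⟩ := hm
  show _ <+: (φ (seg g m)).tail
  rw [← hρ, seg_succ]
  exact List.prefix_append _ ρ

/-- definition by cases on the first entry -/
def caseL (φ ψ : List ℕ → List ℕ) (σ : List ℕ) : List ℕ :=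
  bif decide (σ.length = 0) then [] else bif decide (σ.getD 0 0 = 0) then φ σ.tail else ψ σ.tail

theorem caseL_seg_zero (φ ψ : List ℕ → List ℕ) (g : ℕ → ℕ) (h : g 0 = 0) (m : ℕ) :
    caseL φ ψ (seg g (m + 1)) = φ (seg (tl g) m) := by
  unfold caseL
  rw [seg_length, decide_eq_false (Nat.succ_ne_zero m), cond_false, seg_getD _ _ _ (by omega), h,
    decide_eq_true rfl, cond_true, seg_tail]
  rfl

theorem caseL_seg_ne (φ ψ : List ℕ → List ℕ) (g : ℕ → ℕ) (h : g 0 ≠ 0) (m : ℕ) :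
    caseL φ ψ (seg g (m + 1)) = ψ (seg (tl g) m) := by
  unfold caseL
  rw [seg_length, decide_eq_false (Nat.succ_ne_zero m), cond_false, seg_getD _ _ _ (by omega),
    decide_eq_false h, cond_false, seg_tail]
  rfl

theorem isFunctional_caseL {φ ψ : List ℕ → List ℕ} (hφ : IsFunctional φ) (hψ : IsFunctional ψ) :
    IsFunctional (caseL φ ψ) := by
  constructor
  · unfold caseL
    refine Computable.cond ?_ (Computable.const []) (Computable.cond ?_ ?_ ?_)
    · exact ((Primrec.eq.comp Primrec.list_length (Primrec.const 0)).decide).to_comp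
    · exact ((Primrec.eq.comp ((Primrec.list_getD 0).comp Primrec.id (Primrec.const 0))
        (Primrec.const 0)).decide).to_comp
    · exact hφ.1.comp Primrec.list_tail.to_comp
    · exact hψ.1.comp Primrec.list_tail.to_comp
  · apply mono_of_seg
    intro g m n h
    cases m with
    | zero => exact List.nil_prefix
    | succ m =>
      obtain ⟨n, rfl⟩ : ∃ k, n = k + 1 := ⟨n - 1, by omega⟩
      by_cases h0 : g 0 = 0
      · rw [caseL_seg_zero _ _ _ h0, caseL_seg_zero _ _ _ h0]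
        exact hφ.2 _ _ (seg_mono _ (by omega))
      · rw [caseL_seg_ne _ _ _ h0, caseL_seg_ne _ _ _ h0]
        exact hψ.2 _ _ (seg_mono _ (by omega))

theorem maps_caseL_zero {φ ψ : List ℕ → List ℕ} {g f : ℕ → ℕ} (h : g 0 = 0)
    (h' : Maps φ (tl g) f) : Maps (caseL φ ψ) g f := by
  intro n
  obtain ⟨m, hm⟩ := h' n
  exact ⟨m + 1, by rw [caseL_seg_zero _ _ _ h]; exact hm⟩

theorem maps_caseL_ne {φ ψ : List ℕ → List ℕ} {g f : ℕ → ℕ} (h : g 0 ≠ 0)
    (h' : Maps ψ (tl g) f) : Maps (caseL φ ψ) g f := by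
  intro n
  obtain ⟨m, hm⟩ := h' n
  exact ⟨m + 1, by rw [caseL_seg_ne _ _ _ h]; exact hm⟩

/-! ### The lattice operations -/

theorem le_join_left (A B : Set (ℕ → ℕ)) : MedvedevLe A (joinSet A B) :=
  ⟨evL, isFunctional_evL, fun h hh => ⟨evn h, (mem_joinSet.1 hh).1, maps_evL h⟩⟩

theorem le_join_right (A B : Set (ℕ → ℕ)) : MedvedevLe B (joinSet A B) :=
  ⟨odL, isFunctional_odL, fun h hh => ⟨odd h, (mem_joinSet.1 hh).2, maps_odL h⟩⟩

theorem join_le {A B C : Set (ℕ → ℕ)} (h1 : MedvedevLe A C) (h2 : MedvedevLe B C) :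
    MedvedevLe (joinSet A B) C := by
  obtain ⟨φ, hφ, h3⟩ := h1
  obtain ⟨ψ, hψ, h4⟩ := h2
  refine ⟨_, isFunctional_pairL hφ hψ, fun g hg => ?_⟩
  obtain ⟨f, hf, h5⟩ := h3 g hg
  obtain ⟨f', hf', h6⟩ := h4 g hg
  exact ⟨_, ⟨f, hf, f', hf', rfl⟩, maps_pairL hφ hψ h5 h6⟩

theorem meet_le_left (A B : Set (ℕ → ℕ)) : MedvedevLe (meetSet A B) A :=
  ⟨_, isFunctional_cons 0, fun f hf => ⟨_, Or.inl ⟨f, hf, rfl⟩, maps_cons 0 f⟩⟩

theorem meet_le_right (A B : Set (ℕ → ℕ)) : MedvedevLe (meetSet A B) B :=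
  ⟨_, isFunctional_cons 1, fun f hf => ⟨_, Or.inr ⟨f, hf, rfl⟩, maps_cons 1 f⟩⟩

theorem le_meet {A B C : Set (ℕ → ℕ)} (h1 : MedvedevLe C A) (h2 : MedvedevLe C B) :
    MedvedevLe C (meetSet A B) := by
  obtain ⟨φ, hφ, h3⟩ := h1
  obtain ⟨ψ, hψ, h4⟩ := h2
  refine ⟨caseL φ ψ, isFunctional_caseL hφ hψ, fun g hg => ?_⟩
  rcases mem_meetSet.1 hg with ⟨h5, h6⟩ | ⟨h5, h6⟩
  · obtain ⟨f, hf, h7⟩ := h3 _ h6
    exact ⟨f, hf, maps_caseL_zero h5 h7⟩
  · obtain ⟨f, hf, h7⟩ := h4 _ h6
    exact ⟨f, hf, maps_caseL_ne (by omega) h7⟩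

end Pool.Agent.W939.Med
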