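import Pool.Agent.W939.Med.Split

set_option autoImplicit false

/-! Generic families of functions. -/

namespace Pool.Agent.W939.Med

theorem exists_generic {ι κ : Type} [Countable ι] [Countable κ] (W : κ → Set (ι → ℕ))
    (h : ∀ k (I : Finset ι) (F0 : ι → ℕ), ∃ (J : Finset ι) (F1 : ι → ℕ),
      (∀ i ∈ I, F1 i = F0 i) ∧ ∀ F : ι → ℕ, (∀ i ∈ J, F i = F1 i) → F ∈ W k) :
    ∃ F : ι → ℕ, ∀ k, F ∈ W k := by
  have hB : BaireSpace (ι → ℕ) := by
    let := TopologicalSpace.upgradeIsCompletelyMetrizable (ι → ℕ)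
    infer_instance
  have h1 : ∀ k, IsOpen (interior (W k)) := fun k => isOpen_interior
  have h2 : ∀ k, Dense (interior (W k)) := by
    intro k
    rw [dense_iff_inter_open]
    rintro O hO ⟨F0, hF0⟩
    obtain ⟨I, u, h3, h4⟩ := isOpen_pi_iff.1 hO F0 hF0
    obtain ⟨J, F1, h5, h6⟩ := h k I F0
    refine ⟨F1, h4 ?_, ?_⟩
    · intro i hi
      rw [h5 i hi]
      exact (h3 i hi).2
    · rw [mem_interior]
      refine ⟨{F | ∀ i ∈ J, F i = F1 i}, fun F hF => h6 F hF, ?_, fun i _ => rfl⟩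
      have : {F : ι → ℕ | ∀ i ∈ J, F i = F1 i} = ⋂ i ∈ J, {F | F i = F1 i} := by
        ext F; simp
      rw [this]
      refine isOpen_biInter_finset fun i _ => ?_
      exact (isOpen_discrete ({F1 i} : Set ℕ)).preimage (continuous_apply (A := fun _ : ι => ℕ) i)
  obtain ⟨F, hF⟩ := (dense_iInter_of_isOpen h1 h2).nonempty
  rw [Set.mem_iInter] at hF
  exact ⟨F, fun k => interior_subset (hF k)⟩

/-- functionals -/
abbrev Fn : Type := {θ : List ℕ → List ℕ // IsFunctional θ}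

instance : Countable Fn := by
  have := countable_computable
  exact Function.Injective.countable (f := fun θ : Fn =>
    (⟨θ.1, θ.2.1⟩ : {θ : List ℕ → List ℕ // Computable θ})) (by
    intro a b h
    exact Subtype.ext (Subtype.mk.inj h))

/-- `p` followed by the column `a` -/
def el (K : ℕ × ℕ → ℕ) (p a : ℕ) : ℕ → ℕ := consFun p (fun i => K (a, i))

theorem seg_join_congr {f f' g g' : ℕ → ℕ} {m : ℕ} (h1 : ∀ i < m, f i = f' i)
    (h2 : ∀ i < m, g i = g' i) : seg (joinFun f g) m = seg (joinFun f' g') m := by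
  apply seg_congr
  intro i hi
  unfold joinFun
  split_ifs
  · exact h1 _ (by omega)
  · exact h2 _ (by omega)

theorem el_congr {K K' : ℕ × ℕ → ℕ} {p a m : ℕ} (h : ∀ i < m, K (a, i) = K' (a, i)) :
    ∀ i < m + 1, el K p a i = el K' p a i := by
  intro i hi
  cases i with
  | zero => rfl
  | succ i => exact h i (by omega)

theorem not_maps_of_value {φ : List ℕ → List ℕ} (hφ : IsFunctional φ) {g f : ℕ → ℕ} {m j v : ℕ}
    (h : (φ (seg g m))[j]? = some v) (hv : f j ≠ v) : ¬ Maps φ g f := by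
  intro h1
  have h2 := h1.out hφ m
  rw [h2] at h
  have hj : j < (φ (seg g m)).length := by
    by_contra h3
    rw [List.getElem?_eq_none (by rw [seg_length]; omega)] at h
    exact absurd h (by simp)
  rw [seg_getElem? _ _ _ hj] at h
  exact hv (Option.some.inj h)

theorem Maps.value {φ : List ℕ → List ℕ} {g f : ℕ → ℕ} (h : Maps φ g f) (j : ℕ) :
    ∃ m v, (φ (seg g m))[j]? = some v := by
  obtain ⟨m, hm⟩ := h (j + 1)
  have h1 := hm.length_le
  rw [seg_length] at h1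
  exact ⟨m, _, List.getElem?_eq_getElem (by omega)⟩

/-- first kind of requirements -/
def R1 (φ : Fn) (p a q b r c : ℕ) : Set (ℕ × ℕ → ℕ) :=
  {K | c ≠ a → c ≠ b → ¬ Maps φ.1 (joinFun (el K p a) (el K q b)) (el K r c)}

/-- second kind of requirements -/
def R2 (φ : Fn) (ρ : List ℕ) (p a r c : ℕ) : Set (ℕ × ℕ → ℕ) :=
  {K | c ≠ a → ∃ ρ' : List ℕ, ρ <+: ρ' ∧ ∀ X : ℕ → ℕ, seg X ρ'.length = ρ' →
    ¬ Maps φ.1 (joinFun (el K p a) X) (el K r c)}

theorem exists_fresh (I : Finset (ℕ × ℕ)) (c : ℕ) : ∃ j, (c, j) ∉ I := by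
  by_contra h
  push Not at h
  have : Set.Infinite (↑I : Set (ℕ × ℕ)) := by
    refine Set.infinite_of_injective_forall_mem (f := fun j : ℕ => (c, j)) ?_ h
    intro a b hab
    exact (Prod.mk.inj hab).2
  exact this I.finite_toSet

theorem R1_dense (φ : Fn) (p a q b r c : ℕ) (I : Finset (ℕ × ℕ)) (F0 : ℕ × ℕ → ℕ) :
    ∃ (J : Finset (ℕ × ℕ)) (F1 : ℕ × ℕ → ℕ), (∀ i ∈ I, F1 i = F0 i) ∧
      ∀ F : ℕ × ℕ → ℕ, (∀ i ∈ J, F i = F1 i) → F ∈ R1 φ p a q b r c := by
  classical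
  by_cases hc : c ≠ a ∧ c ≠ b
  swap
  · exact ⟨∅, F0, fun _ _ => rfl, fun F _ h1 h2 => absurd ⟨h1, h2⟩ hc⟩
  obtain ⟨j, hj⟩ := exists_fresh I c
  by_cases h : ∃ F' : ℕ × ℕ → ℕ, (∀ i ∈ I, F' i = F0 i) ∧ ∃ m v,
      (φ.1 (seg (joinFun (el F' p a) (el F' q b)) m))[j + 1]? = some v
  · obtain ⟨F', h1, m, v, h2⟩ := h
    refine ⟨(Finset.range m).image (fun i => (a, i)) ∪ (Finset.range m).image (fun i => (b, i)) ∪
      {(c, j)}, Function.update F' (c, j) (v + 1), ?_, ?_⟩
    · intro i hi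
      rw [Function.update_of_ne (by rintro rfl; exact hj hi)]
      exact h1 i hi
    · intro F hF _ _
      have h3 : seg (joinFun (el F p a) (el F q b)) m =
          seg (joinFun (el F' p a) (el F' q b)) m := by
        apply seg_join_congr
        · intro i hi
          refine el_congr (m := m) ?_ i (by omega)
          intro i hi
          rw [hF (a, i) (by simp [hi]), Function.update_of_ne (by
            intro h; exact hc.1 (Prod.mk.inj h).1.symm)]
        · intro i hi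
          refine el_congr (m := m) ?_ i (by omega)
          intro i hi
          rw [hF (b, i) (by simp [hi]), Function.update_of_ne (by
            intro h; exact hc.2 (Prod.mk.inj h).1.symm)]
      rw [← h3] at h2
      apply not_maps_of_value φ.2 h2
      have h4 : el F r c (j + 1) = F (c, j) := rfl
      rw [h4, hF (c, j) (by simp), Function.update_self]
      omega
  · refine ⟨I, F0, fun _ _ => rfl, fun F hF _ _ hM => ?_⟩
    obtain ⟨m, v, h1⟩ := hM.value (j + 1)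
    exact h ⟨F, hF, m, v, h1⟩

theorem R2_dense (φ : Fn) (ρ : List ℕ) (p a r c : ℕ) (I : Finset (ℕ × ℕ)) (F0 : ℕ × ℕ → ℕ) :
    ∃ (J : Finset (ℕ × ℕ)) (F1 : ℕ × ℕ → ℕ), (∀ i ∈ I, F1 i = F0 i) ∧
      ∀ F : ℕ × ℕ → ℕ, (∀ i ∈ J, F i = F1 i) → F ∈ R2 φ ρ p a r c := by
  classical
  by_cases hc : c ≠ a
  swap
  · exact ⟨∅, F0, fun _ _ => rfl, fun F _ h1 => absurd h1 hc⟩
  obtain ⟨j, hj⟩ := exists_fresh I c
  by_cases h : ∃ F' : ℕ × ℕ → ℕ, (∀ i ∈ I, F' i = F0 i) ∧ ∃ X' : ℕ → ℕ, seg X' ρ.length = ρ ∧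
      ∃ m v, (φ.1 (seg (joinFun (el F' p a) X') m))[j + 1]? = some v
  · obtain ⟨F', h1, X', hX', m, v, h2⟩ := h
    refine ⟨(Finset.range m).image (fun i => (a, i)) ∪ {(c, j)},
      Function.update F' (c, j) (v + 1), ?_, ?_⟩
    · intro i hi
      rw [Function.update_of_ne (by rintro rfl; exact hj hi)]
      exact h1 i hi
    · intro F hF _
      refine ⟨seg X' (max m ρ.length), ?_, ?_⟩
      · rw [← hX', seg_length]
        exact seg_mono _ (le_max_right _ _)
      · intro X hX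
        rw [seg_length, seg_eq_iff] at hX
        have h3 : seg (joinFun (el F p a) X) m = seg (joinFun (el F' p a) X') m := by
          apply seg_join_congr
          · intro i hi
            refine el_congr (m := m) ?_ i (by omega)
            intro i hi
            rw [hF (a, i) (by simp [hi]), Function.update_of_ne (by
              intro h; exact hc (Prod.mk.inj h).1.symm)]
          · intro i hi
            exact hX i (lt_of_lt_of_le hi (le_max_left _ _))
        rw [← h3] at h2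
        apply not_maps_of_value φ.2 h2
        have h4 : el F r c (j + 1) = F (c, j) := rfl
        rw [h4, hF (c, j) (by simp), Function.update_self]
        omega
  · refine ⟨I, F0, fun _ _ => rfl, fun F hF _ => ⟨ρ, List.prefix_refl _, fun X hX hM => ?_⟩⟩
    obtain ⟨m, v, h1⟩ := hM.value (j + 1)
    exact h ⟨F, hF, X, hX, m, v, h1⟩

theorem exists_K : ∃ K : ℕ × ℕ → ℕ, (∀ φ p a q b r c, K ∈ R1 φ p a q b r c) ∧
    ∀ φ ρ p a r c, K ∈ R2 φ ρ p a r c := by
  obtain ⟨K, hK⟩ := exists_generic (ι := ℕ × ℕ)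
    (κ := (Fn × ℕ × ℕ × ℕ × ℕ × ℕ × ℕ) ⊕ (Fn × List ℕ × ℕ × ℕ × ℕ × ℕ))
    (fun k => match k with
      | Sum.inl (φ, p, a, q, b, r, c) => R1 φ p a q b r c
      | Sum.inr (φ, ρ, p, a, r, c) => R2 φ ρ p a r c) (by
    rintro (⟨φ, p, a, q, b, r, c⟩ | ⟨φ, ρ, p, a, r, c⟩) I F0
    · exact R1_dense φ p a q b r c I F0
    · exact R2_dense φ ρ p a r c I F0)
  exact ⟨K, fun φ p a q b r c => hK (Sum.inl (φ, p, a, q, b, r, c)),
    fun φ ρ p a r c => hK (Sum.inr (φ, ρ, p, a, r, c))⟩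

theorem exists_X {K : ℕ × ℕ → ℕ} (hK : ∀ φ ρ p a r c, K ∈ R2 φ ρ p a r c) {I : Set ℕ}
    (hI : ∀ m, ∃ n, m < n ∧ n ∈ I) :
    ∃ X : ℕ → ℕ, (∀ (φ : Fn) p a r c, c ≠ a → ¬ Maps φ.1 (joinFun (el K p a) X) (el K r c)) ∧
      (∀ m, ∃ n, m < n ∧ n ∈ I ∧ X n = 0) ∧ (∀ m, ∃ n, m < n ∧ n ∈ I ∧ X n = 1) := by
  classical
  obtain ⟨X, hX⟩ := exists_generic (ι := ℕ) (κ := (Fn × ℕ × ℕ × ℕ × ℕ) ⊕ (ℕ × Bool))
    (fun k => match k with
      | Sum.inl (φ, p, a, r, c) => {X | c ≠ a → ¬ Maps φ.1 (joinFun (el K p a) X) (el K r c)}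
      | Sum.inr (m, b) => {X | ∃ n, m < n ∧ n ∈ I ∧ X n = b.toNat}) (by
    rintro (⟨φ, p, a, r, c⟩ | ⟨m, b⟩) I0 X0
    · by_cases hc : c ≠ a
      swap
      · exact ⟨∅, X0, fun _ _ => rfl, fun X _ h => absurd h hc⟩
      obtain ⟨ρ', h1, h2⟩ := hK φ (seg X0 (I0.sup id + 1)) p a r c hc
      refine ⟨Finset.range ρ'.length, fun i => ρ'.getD i 0, ?_, ?_⟩
      · intro i hi
        have h3 : i < I0.sup id + 1 := Nat.lt_succ_of_le (Finset.le_sup (f := id) hi)
        obtain ⟨τ, hτ⟩ := h1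
        show ρ'.getD i 0 = X0 i
        rw [← hτ, List.getD_eq_getElem?_getD, List.getElem?_append_left (by
          rw [seg_length]; exact h3), seg_getElem? _ _ _ h3]
        rfl
      · intro X hX _
        apply h2 X
        rw [list_eq_seg ρ', seg_length]
        rw [seg_eq_iff]
        intro i hi
        exact hX i (Finset.mem_range.2 hi)
    · obtain ⟨n, hn, hnI⟩ := hI (max m (I0.sup id))
      refine ⟨{n}, Function.update X0 n b.toNat, ?_, ?_⟩
      · intro i hi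
        apply Function.update_of_ne
        rintro rfl
        have : i ≤ I0.sup id := Finset.le_sup (f := id) hi
        omega
      · intro X hX
        refine ⟨n, by omega, hnI, ?_⟩
        rw [hX n (Finset.mem_singleton_self n), Function.update_self])
  refine ⟨X, fun φ p a r c => hX (Sum.inl (φ, p, a, r, c)), fun m => ?_, fun m => ?_⟩
  · exact hX (Sum.inr (m, false))
  · exact hX (Sum.inr (m, true))

end Pool.Agent.W939.Med
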