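import Pool.Agent.W939.Med.Func

set_option autoImplicit false

/-! The lattices of degrees, and the language of lattices. -/

namespace Pool.Agent.W939.Med

open FirstOrder

/-- The two spaces. -/
inductive Space : Type
  | baire : Space
  | cantor : Space

/-- The points of the two spaces: all functions, and the functions with values in `{0, 1}`. -/
def Space.points : Space → Set (ℕ → ℕ)
  | Space.baire => Set.univ
  | Space.cantor => {f | ∀ n, f n = 0 ∨ f n = 1}

/-- The nonempty closed subsets of the space `s`. -/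
structure ClosedSets (s : Space) : Type where
  /-- the underlying set of functions -/
  carrier : Set (ℕ → ℕ)
  closed : IsClosed carrier
  nonempty : carrier.Nonempty
  subset : carrier ⊆ s.points

/-- Nonempty closed sets are preordered by Medvedev reducibility. -/
instance (s : Space) : Preorder (ClosedSets s) where
  le A B := MedvedevLe A.1 B.1
  le_refl A := medvedevLe_refl A.1
  le_trans _ _ _ h1 h2 := medvedevLe_trans h1 h2

/-- The Medvedev degrees of the nonempty closed subsets of the space `s`. -/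
abbrev Degrees (s : Space) : Type := Antisymmetrization (ClosedSets s) (· ≤ ·)

theorem points_join {s : Space} {f g : ℕ → ℕ} (hf : f ∈ s.points) (hg : g ∈ s.points) :
    joinFun f g ∈ s.points := by
  cases s with
  | baire => trivial
  | cantor =>
    intro n
    unfold joinFun
    split_ifs
    · exact hf _
    · exact hg _

theorem points_cons {s : Space} {f : ℕ → ℕ} {i : ℕ} (hi : i = 0 ∨ i = 1) (hf : f ∈ s.points) :
    consFun i f ∈ s.points := by
  cases s with
  | baire => trivial
  | cantor =>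
    intro n
    cases n with
    | zero => exact hi
    | succ n => exact hf n

/-- `{f ⊕ g : f ∈ A, g ∈ B}` as a nonempty closed set -/
def ClosedSets.join {s : Space} (A B : ClosedSets s) : ClosedSets s :=
  ⟨joinSet A.1 B.1, isClosed_joinSet A.closed B.closed, by
    obtain ⟨f, hf⟩ := A.nonempty
    obtain ⟨g, hg⟩ := B.nonempty
    exact ⟨_, f, hf, g, hg, rfl⟩, by
    rintro _ ⟨f, hf, g, hg, rfl⟩
    exact points_join (A.subset hf) (B.subset hg)⟩

/-- `{0 ⌢ f : f ∈ A} ∪ {1 ⌢ g : g ∈ B}` as a nonempty closed set -/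
def ClosedSets.meet {s : Space} (A B : ClosedSets s) : ClosedSets s :=
  ⟨meetSet A.1 B.1, isClosed_meetSet A.closed B.closed, by
    obtain ⟨f, hf⟩ := A.nonempty
    exact ⟨_, Or.inl ⟨f, hf, rfl⟩⟩, by
    rintro _ (⟨f, hf, rfl⟩ | ⟨g, hg, rfl⟩)
    · exact points_cons (Or.inl rfl) (A.subset hf)
    · exact points_cons (Or.inr rfl) (B.subset hg)⟩

theorem ClosedSets.le_join_left {s : Space} (A B : ClosedSets s) : A ≤ A.join B :=
  Med.le_join_left A.1 B.1
theorem ClosedSets.le_join_right {s : Space} (A B : ClosedSets s) : B ≤ A.join B :=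
  Med.le_join_right A.1 B.1
theorem ClosedSets.join_le {s : Space} {A B C : ClosedSets s} (h1 : A ≤ C) (h2 : B ≤ C) :
    A.join B ≤ C := Med.join_le h1 h2
theorem ClosedSets.meet_le_left {s : Space} (A B : ClosedSets s) : A.meet B ≤ A :=
  Med.meet_le_left A.1 B.1
theorem ClosedSets.meet_le_right {s : Space} (A B : ClosedSets s) : A.meet B ≤ B :=
  Med.meet_le_right A.1 B.1
theorem ClosedSets.le_meet {s : Space} {A B C : ClosedSets s} (h1 : C ≤ A) (h2 : C ≤ B) :
    C ≤ A.meet B := Med.le_meet h1 h2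

/-- The degrees form a lattice, with the join `A ⊔ B` the degree of `{f ⊕ g : f ∈ A, g ∈ B}` and
the meet `A ⊓ B` the degree of `{0 ⌢ f : f ∈ A} ∪ {1 ⌢ g : g ∈ B}`. -/
instance (s : Space) : Lattice (Degrees s) where
  sup := Quotient.map₂ ClosedSets.join (by
    intro A A' hA B B' hB
    exact ⟨ClosedSets.join_le (hA.1.trans (ClosedSets.le_join_left _ _))
      (hB.1.trans (ClosedSets.le_join_right _ _)),
      ClosedSets.join_le (hA.2.trans (ClosedSets.le_join_left _ _))
      (hB.2.trans (ClosedSets.le_join_right _ _))⟩)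
  inf := Quotient.map₂ ClosedSets.meet (by
    intro A A' hA B B' hB
    exact ⟨ClosedSets.le_meet ((ClosedSets.meet_le_left _ _).trans hA.1)
      ((ClosedSets.meet_le_right _ _).trans hB.1),
      ClosedSets.le_meet ((ClosedSets.meet_le_left _ _).trans hA.2)
      ((ClosedSets.meet_le_right _ _).trans hB.2)⟩)
  le_sup_left := by
    rintro ⟨A⟩ ⟨B⟩
    exact ClosedSets.le_join_left A B
  le_sup_right := by
    rintro ⟨A⟩ ⟨B⟩
    exact ClosedSets.le_join_right A B
  sup_le := by
    rintro ⟨A⟩ ⟨B⟩ ⟨C⟩ h1 h2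
    exact ClosedSets.join_le (A := A) (B := B) (C := C) h1 h2
  inf_le_left := by
    rintro ⟨A⟩ ⟨B⟩
    exact ClosedSets.meet_le_left A B
  inf_le_right := by
    rintro ⟨A⟩ ⟨B⟩
    exact ClosedSets.meet_le_right A B
  le_inf := by
    rintro ⟨A⟩ ⟨B⟩ ⟨C⟩ h1 h2
    exact ClosedSets.le_meet (A := B) (B := C) (C := A) h1 h2

/-- The two operation symbols of the language of lattices. -/
inductive LatticeOp : ℕ → Type
  | join : LatticeOp 2
  | meet : LatticeOp 2

/-- The first-order language of lattices. -/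
def latticeLang : Language := ⟨LatticeOp, fun _ => Empty⟩

/-- Every lattice is a structure for the language of lattices. -/
instance latticeStructure (M : Type) [Lattice M] : latticeLang.Structure M where
  funMap {n} f := match n, f with
    | _, LatticeOp.join => fun v => v 0 ⊔ v 1
    | _, LatticeOp.meet => fun v => v 0 ⊓ v 1
  RelMap := fun r => r.elim

/-! ### The sentence -/

/-- meet-irreducible elements -/
def Irr {M : Type} [Lattice M] (x : M) : Prop := ∀ u v : M, u ⊓ v ≤ x → u ≤ x ∨ v ≤ x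

/-- `f` is a component of `A` -/
def IsComp {M : Type} [Lattice M] (f A : M) : Prop := Irr f ∧ ∃ A' : M, A = f ⊓ A' ∧ ¬ A' ≤ f

/-- the sentence -/
def Sent (M : Type) [Lattice M] : Prop :=
  ∃ A G C : M, (∃ g, IsComp g G) ∧
    (∀ f, IsComp f A → ∃ g, IsComp g G ∧ C ≤ f ⊔ g) ∧
    (∀ g g', IsComp g G → IsComp g' G → ∃ g'', IsComp g'' G ∧
      ∀ f, IsComp f A → (C ≤ f ⊔ g ∨ C ≤ f ⊔ g') → C ≤ f ⊔ g'') ∧
    (∀ g, IsComp g G → ∃ f, IsComp f A ∧ ¬ C ≤ f ⊔ g) ∧
    ∀ S : M, (∀ g, IsComp g G → ∃ f, IsComp f A ∧ S ≤ f ∧ ¬ C ≤ f ⊔ g) →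
      ∃ x U V : M, Irr x ∧ U ⊓ V ≤ A ⊔ x ∧
        (∀ g, IsComp g G → ∃ f, IsComp f A ∧ S ≤ f ∧ ¬ C ≤ f ⊔ g ∧ ¬ U ≤ f ⊔ x) ∧
        (∀ g, IsComp g G → ∃ f, IsComp f A ∧ S ≤ f ∧ ¬ C ≤ f ⊔ g ∧ ¬ V ≤ f ⊔ x)

abbrev BF (n : ℕ) : Type := latticeLang.BoundedFormula Empty n
abbrev TM (n : ℕ) : Type := latticeLang.Term (Empty ⊕ Fin n)

/-- variable -/
def vr {n : ℕ} (i : Fin n) : TM n := Language.Term.var (Sum.inr i)
/-- meet of terms -/
def tmeet {n : ℕ} (s t : TM n) : TM n :=
  Language.Term.func (L := latticeLang) (LatticeOp.meet : LatticeOp 2) ![s, t]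
/-- join of terms -/
def tjoin {n : ℕ} (s t : TM n) : TM n :=
  Language.Term.func (L := latticeLang) (LatticeOp.join : LatticeOp 2) ![s, t]

section realize

variable {M : Type} [Lattice M] {n : ℕ} (v : Empty → M) (xs : Fin n → M)

theorem realize_vr (i : Fin n) : (vr i).realize (Sum.elim v xs) = xs i := rfl

theorem realize_tmeet (s t : TM n) : (tmeet s t).realize (Sum.elim v xs) =
    s.realize (Sum.elim v xs) ⊓ t.realize (Sum.elim v xs) := rfl

theorem realize_tjoin (s t : TM n) : (tjoin s t).realize (Sum.elim v xs) =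
    s.realize (Sum.elim v xs) ⊔ t.realize (Sum.elim v xs) := rfl

end realize

/-- the formula `s ≤ t` -/
def leF {n : ℕ} (s t : TM n) : BF n := Language.Term.bdEqual (tmeet s t) s

theorem realize_leF {M : Type} [Lattice M] {n : ℕ} (v : Empty → M) (xs : Fin n → M) (s t : TM n) :
    (leF s t).Realize v xs ↔ s.realize (Sum.elim v xs) ≤ t.realize (Sum.elim v xs) := by
  unfold leF
  rw [Language.BoundedFormula.realize_bdEqual, realize_tmeet]
  exact inf_eq_left

/-- the formula saying that the variable `i` is irreducible -/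
def irrF {n : ℕ} (i : Fin n) : BF n :=
  ((leF (tmeet (vr (Fin.last n).castSucc) (vr (Fin.last (n + 1)))) (vr i.castSucc.castSucc)).imp
    ((leF (vr (Fin.last n).castSucc) (vr i.castSucc.castSucc)) ⊔
      (leF (vr (Fin.last (n + 1))) (vr i.castSucc.castSucc)))).all.all

theorem realize_irrF {M : Type} [Lattice M] {n : ℕ} (v : Empty → M) (xs : Fin n → M) (i : Fin n) :
    (irrF i).Realize v xs ↔ Irr (xs i) := by
  unfold irrF Irr
  simp only [Language.BoundedFormula.realize_all, Language.BoundedFormula.realize_imp,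
    Language.BoundedFormula.realize_sup, realize_leF, realize_tmeet, realize_vr,
    Fin.snoc_castSucc, Fin.snoc_last]

/-- the formula saying that the variable `i` is a component of the variable `j` -/
def compF {n : ℕ} (i j : Fin n) : BF n :=
  irrF i ⊓ ((Language.Term.bdEqual (vr j.castSucc) (tmeet (vr i.castSucc) (vr (Fin.last n)))) ⊓
    (leF (vr (Fin.last n)) (vr i.castSucc)).not).ex

theorem realize_compF {M : Type} [Lattice M] {n : ℕ} (v : Empty → M) (xs : Fin n → M)
    (i j : Fin n) : (compF i j).Realize v xs ↔ IsComp (xs i) (xs j) := by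
  unfold compF IsComp
  simp only [Language.BoundedFormula.realize_inf, Language.BoundedFormula.realize_ex,
    Language.BoundedFormula.realize_not, Language.BoundedFormula.realize_bdEqual,
    realize_irrF, realize_leF, realize_tmeet, realize_vr, Fin.snoc_castSucc, Fin.snoc_last]

end Pool.Agent.W939.Med
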