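import Pool.Agent.W939.Med.Lat

set_option autoImplicit false

/-! Splitting closed sets by functionals; components. -/

namespace Pool.Agent.W939.Med

/-- the degree of a nonempty closed set -/
def deg {s : Space} (A : ClosedSets s) : Degrees s := toAntisymmetrization (· ≤ ·) A

theorem deg_le {s : Space} {A B : ClosedSets s} : deg A ≤ deg B ↔ MedvedevLe A.1 B.1 :=
  toAntisymmetrization_le_toAntisymmetrization_iff

theorem exists_rep {s : Space} (d : Degrees s) : ∃ A : ClosedSets s, deg A = d := by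
  induction d using Quotient.inductionOn with
  | _ A => exact ⟨A, rfl⟩

theorem deg_sup {s : Space} (A B : ClosedSets s) : deg A ⊔ deg B = deg (A.join B) := rfl
theorem deg_inf {s : Space} (A B : ClosedSets s) : deg A ⊓ deg B = deg (A.meet B) := rfl

theorem empty_not_le {A : Set (ℕ → ℕ)} (h : A.Nonempty) : ¬ MedvedevLe ∅ A := by
  rintro ⟨φ, -, h1⟩
  obtain ⟨g, hg⟩ := h
  obtain ⟨f, hf, -⟩ := h1 g hg
  exact hf

/-- the first output is zero -/
def Hit (θ : List ℕ → List ℕ) : Set (ℕ → ℕ) := {g | ∃ m, ∃ τ, θ (seg g m) = 0 :: τ}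
/-- the first output is defined -/
def Dec (θ : List ℕ → List ℕ) : Set (ℕ → ℕ) := {g | ∃ m, θ (seg g m) ≠ []}

theorem isOpen_agree (g : ℕ → ℕ) (m : ℕ) : IsOpen {g' : ℕ → ℕ | seg g' m = seg g m} := by
  have : {g' : ℕ → ℕ | seg g' m = seg g m} = ⋂ i ∈ Finset.range m, {g' | g' i = g i} := by
    ext g'
    simp only [Set.mem_ofPred_eq, seg_eq_iff, Set.mem_iInter, Finset.mem_range]
  rw [this]
  refine isOpen_biInter_finset fun i _ => ?_
  exact (isOpen_discrete ({g i} : Set ℕ)).preimage (continuous_apply (A := fun _ : ℕ => ℕ) i)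

theorem isOpen_seg (P : List ℕ → Prop) : IsOpen {g : ℕ → ℕ | ∃ m, P (seg g m)} := by
  rw [isOpen_iff_forall_mem_open]
  rintro g ⟨m, hm⟩
  refine ⟨{g' | seg g' m = seg g m}, ?_, isOpen_agree g m, rfl⟩
  intro g' hg'
  exact ⟨m, by rw [Set.mem_ofPred_eq] at hg'; rw [hg']; exact hm⟩

theorem isClosed_agree (g : ℕ → ℕ) (m : ℕ) : IsClosed {g' : ℕ → ℕ | seg g' m = seg g m} := by
  have : {g' : ℕ → ℕ | seg g' m = seg g m} = ⋂ i ∈ Finset.range m, {g' | g' i = g i} := by
    ext g'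
    simp only [Set.mem_ofPred_eq, seg_eq_iff, Set.mem_iInter, Finset.mem_range]
  rw [this]
  refine isClosed_biInter fun i _ => ?_
  exact isClosed_eq (continuous_apply i) continuous_const

theorem isOpen_Hit (θ : List ℕ → List ℕ) : IsOpen (Hit θ) :=
  isOpen_seg fun σ => ∃ τ, θ σ = 0 :: τ

theorem hit_not {θ : List ℕ → List ℕ} (hθ : IsFunctional θ) {g : ℕ → ℕ} {m a : ℕ} {τ : List ℕ}
    (h : θ (seg g m) = a :: τ) : g ∈ Hit θ ↔ a = 0 := by
  constructor
  · rintro ⟨k, ρ, hk⟩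
    have h1 := hθ.2 _ _ (seg_mono g (le_max_left m k))
    have h2 := hθ.2 _ _ (seg_mono g (le_max_right m k))
    rw [h] at h1
    rw [hk] at h2
    obtain ⟨ρ1, h1⟩ := h1
    obtain ⟨ρ2, h2⟩ := h2
    rw [← h1] at h2
    have h3 := (List.cons.inj h2).1
    exact h3.symm
  · rintro rfl
    exact ⟨m, τ, h⟩

theorem isClosed_inter_Hit {θ : List ℕ → List ℕ} (hθ : IsFunctional θ) {B : Set (ℕ → ℕ)}
    (hB : IsClosed B) (hd : B ⊆ Dec θ) : IsClosed (B ∩ Hit θ) := by
  have : B ∩ Hit θ = B ∩ {g | ∃ m, ∃ a τ, θ (seg g m) = a :: τ ∧ a ≠ 0}ᶜ := by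
    ext g
    constructor
    · rintro ⟨h1, h2⟩
      refine ⟨h1, ?_⟩
      rintro ⟨m, a, τ, h3, h4⟩
      exact h4 ((hit_not hθ h3).1 h2)
    · rintro ⟨h1, h2⟩
      refine ⟨h1, ?_⟩
      obtain ⟨m, hm⟩ := hd h1
      obtain ⟨a, τ, h3⟩ := List.exists_cons_of_ne_nil hm
      rw [hit_not hθ h3]
      by_contra h4
      exact h2 ⟨m, a, τ, h3, h4⟩
  rw [this]
  refine hB.inter (IsOpen.isClosed_compl ?_)
  exact isOpen_seg fun σ => ∃ a τ, θ σ = a :: τ ∧ a ≠ 0

theorem isClosed_diff_Hit (θ : List ℕ → List ℕ) {B : Set (ℕ → ℕ)}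
    (hB : IsClosed B) : IsClosed (B \ Hit θ) :=
  hB.inter (isOpen_Hit θ).isClosed_compl

/-- the splitting functional -/
def splitL (θ : List ℕ → List ℕ) (σ : List ℕ) : List ℕ :=
  bif decide ((θ σ).length = 0) then []
  else (bif decide ((θ σ).getD 0 0 = 0) then 0 else 1) :: σ

theorem splitL_nil {θ : List ℕ → List ℕ} {σ : List ℕ} (h : θ σ = []) : splitL θ σ = [] := by
  unfold splitL; rw [h]; rfl

theorem splitL_cons {θ : List ℕ → List ℕ} {σ τ : List ℕ} {a : ℕ} (h : θ σ = a :: τ) :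
    splitL θ σ = (if a = 0 then 0 else 1) :: σ := by
  unfold splitL; rw [h]
  by_cases h0 : a = 0 <;> simp [h0]

theorem isFunctional_splitL {θ : List ℕ → List ℕ} (hθ : IsFunctional θ) :
    IsFunctional (splitL θ) := by
  constructor
  · unfold splitL
    refine Computable.cond ?_ (Computable.const []) ?_
    · exact ((Primrec.eq.comp Primrec.list_length (Primrec.const 0)).decide).to_comp.comp hθ.1
    · refine Computable.list_cons.comp (Computable.cond ?_ (Computable.const 0)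
        (Computable.const 1)) Computable.id
      exact ((Primrec.eq.comp ((Primrec.list_getD 0).comp Primrec.id (Primrec.const 0))
        (Primrec.const 0)).decide).to_comp.comp hθ.1
  · intro σ τ h
    have h1 := hθ.2 σ τ h
    cases hσ : θ σ with
    | nil => rw [splitL_nil hσ]; exact List.nil_prefix
    | cons a ρ =>
      rw [hσ] at h1
      obtain ⟨ρ', h2⟩ := h1
      rw [splitL_cons hσ, splitL_cons (τ := ρ ++ ρ') h2.symm]
      exact (List.prefix_cons_inj _).2 h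

theorem maps_splitL {θ : List ℕ → List ℕ} (hθ : IsFunctional θ) {g : ℕ → ℕ} (hd : g ∈ Dec θ)
    (i : ℕ) (hi : (g ∈ Hit θ ∧ i = 0) ∨ (g ∉ Hit θ ∧ i = 1)) :
    Maps (splitL θ) g (consFun i g) := by
  intro n
  obtain ⟨m, hm⟩ := hd
  obtain ⟨a, τ, h3⟩ := List.exists_cons_of_ne_nil hm
  refine ⟨max m n, ?_⟩
  obtain ⟨ρ, h4⟩ := hθ.2 _ _ (seg_mono g (le_max_left m n))
  rw [h3] at h4
  rw [splitL_cons (τ := τ ++ ρ) h4.symm]
  have h5 : (if a = 0 then 0 else 1) = i := by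
    rcases hi with ⟨h6, rfl⟩ | ⟨h6, rfl⟩
    · rw [hit_not hθ h3] at h6; simp [h6]
    · rw [hit_not hθ h3] at h6; simp [h6]
  rw [h5, ← seg_cons]
  exact seg_mono _ (by omega)

theorem split_le {θ : List ℕ → List ℕ} (hθ : IsFunctional θ) {B : Set (ℕ → ℕ)}
    (hd : B ⊆ Dec θ) : MedvedevLe (meetSet (B ∩ Hit θ) (B \ Hit θ)) B := by
  refine ⟨splitL θ, isFunctional_splitL hθ, fun g hg => ?_⟩
  by_cases h : g ∈ Hit θ
  · exact ⟨consFun 0 g, Or.inl ⟨g, ⟨hg, h⟩, rfl⟩, maps_splitL hθ (hd hg) 0 (Or.inl ⟨h, rfl⟩)⟩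
  · exact ⟨consFun 1 g, Or.inr ⟨g, ⟨hg, h⟩, rfl⟩, maps_splitL hθ (hd hg) 1 (Or.inr ⟨h, rfl⟩)⟩

theorem irr_set {s : Space} {f : ClosedSets s} (hf : Irr (deg f)) {U V : Set (ℕ → ℕ)}
    (hU : IsClosed U) (hV : IsClosed V) (hU' : U ⊆ s.points) (hV' : V ⊆ s.points)
    (h : MedvedevLe (meetSet U V) f.1) : MedvedevLe U f.1 ∨ MedvedevLe V f.1 := by
  have htl : ∀ {A B : Set (ℕ → ℕ)}, (∀ h ∈ B, tl h ∈ A) → MedvedevLe A B := fun {A B} h =>
    ⟨_, isFunctional_tail isFunctional_id, fun g hg => ⟨tl g, h g hg, maps_tail (maps_id g)⟩⟩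
  rcases Set.eq_empty_or_nonempty U with rfl | hUn
  · right
    refine medvedevLe_trans (htl ?_) h
    intro g hg
    rcases mem_meetSet.1 hg with h1 | h1
    · exact h1.2.elim
    · exact h1.2
  rcases Set.eq_empty_or_nonempty V with rfl | hVn
  · left
    refine medvedevLe_trans (htl ?_) h
    intro g hg
    rcases mem_meetSet.1 hg with h1 | h1
    · exact h1.2
    · exact h1.2.elim
  have h1 := hf (deg ⟨U, hU, hUn, hU'⟩) (deg ⟨V, hV, hVn, hV'⟩) (by
    rw [deg_inf, deg_le]; exact h)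
  rw [deg_le, deg_le] at h1
  exact h1

/-- an irreducible degree above a closed set is above one of the parts -/
theorem irr_split {s : Space} {f : ClosedSets s} (hf : Irr (deg f)) {θ : List ℕ → List ℕ}
    (hθ : IsFunctional θ) {B : Set (ℕ → ℕ)} (hB : IsClosed B) (hB' : B ⊆ s.points)
    (hd : B ⊆ Dec θ) (h : MedvedevLe B f.1) :
    MedvedevLe (B ∩ Hit θ) f.1 ∨ MedvedevLe (B \ Hit θ) f.1 :=
  irr_set hf (isClosed_inter_Hit hθ hB hd) (isClosed_diff_Hit θ hB)
    (fun _ h => hB' h.1) (fun _ h => hB' h.1) (medvedevLe_trans (split_le hθ hd) h)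

/-- a component of `A` is (equivalent to) a clopen part of `A` -/
def Repr {s : Space} (f A : ClosedSets s) (θ : List ℕ → List ℕ) : Prop :=
  IsFunctional θ ∧ A.1 ⊆ Dec θ ∧ MedvedevLe f.1 (A.1 ∩ Hit θ) ∧ MedvedevLe (A.1 ∩ Hit θ) f.1 ∧
    ¬ MedvedevLe (A.1 \ Hit θ) f.1

theorem exists_repr {s : Space} {f A : ClosedSets s} (h : IsComp (deg f) (deg A)) :
    ∃ θ, Repr f A θ := by
  obtain ⟨hf, d, h1, h2⟩ := h
  obtain ⟨A', rfl⟩ := exists_rep d
  rw [deg_le] at h2
  have h3 : MedvedevLe (meetSet f.1 A'.1) A.1 := by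
    have : deg f ⊓ deg A' ≤ deg A := h1.ge
    rw [deg_inf, deg_le] at this
    exact this
  have hfA : MedvedevLe A.1 f.1 := by
    have : deg A ≤ deg f := h1.le.trans inf_le_left
    rw [deg_le] at this
    exact this
  obtain ⟨θ, hθ, h4⟩ := h3
  have hd : A.1 ⊆ Dec θ := by
    intro g hg
    obtain ⟨e, -, he⟩ := h4 g hg
    obtain ⟨m, hm⟩ := he 1
    refine ⟨m, ?_⟩
    intro h0
    have := hm.length_le
    rw [h0, seg_length] at this
    simp at this
  have hfst : ∀ g ∈ A.1, ∀ e, Maps θ g e → (g ∈ Hit θ ↔ e 0 = 0) := by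
    intro g hg e he
    obtain ⟨m, hm⟩ := he 1
    obtain ⟨τ, hτ⟩ := hm
    have : θ (seg g m) = e 0 :: τ := by
      rw [← hτ]; rfl
    exact hit_not hθ this
  have h5 : MedvedevLe f.1 (A.1 ∩ Hit θ) := by
    refine ⟨_, isFunctional_tail hθ, ?_⟩
    rintro g ⟨hg, hg'⟩
    obtain ⟨e, he, he'⟩ := h4 g hg
    rw [hfst g hg e he'] at hg'
    refine ⟨tl e, ?_, maps_tail he'⟩
    rcases mem_meetSet.1 he with h6 | h6
    · exact h6.2
    · rw [h6.1] at hg'; exact absurd hg' (by norm_num)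
  have h6 : MedvedevLe A'.1 (A.1 \ Hit θ) := by
    refine ⟨_, isFunctional_tail hθ, ?_⟩
    rintro g ⟨hg, hg'⟩
    obtain ⟨e, he, he'⟩ := h4 g hg
    rw [hfst g hg e he'] at hg'
    refine ⟨tl e, ?_, maps_tail he'⟩
    rcases mem_meetSet.1 he with h7 | h7
    · exact absurd h7.1 hg'
    · exact h7.2
  have h7 : ¬ MedvedevLe (A.1 \ Hit θ) f.1 := fun h => h2 (medvedevLe_trans h6 h)
  refine ⟨θ, hθ, hd, h5, ?_, h7⟩
  rcases irr_split hf hθ A.closed A.subset hd hfA with h8 | h8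
  · exact h8
  · exact absurd h8 h7

/-- components are pairwise incomparable -/
theorem comp_incomp {M : Type} [Lattice M] {f g A : M} (hf : IsComp f A) (hg : IsComp g A)
    (h : g ≤ f) : f = g := by
  obtain ⟨-, A', h1, h2⟩ := hf
  obtain ⟨h3, A'', h4, -⟩ := hg
  have h5 : f ⊓ A' ≤ g := by rw [← h1, h4]; exact inf_le_left
  rcases h3 _ _ h5 with h6 | h6
  · exact le_antisymm h6 h
  · exact absurd (h6.trans h) h2

theorem countable_computable : Countable {θ : List ℕ → List ℕ // Computable θ} := by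
  have h : ∀ θ : {θ : List ℕ → List ℕ // Computable θ}, ∃ c : Nat.Partrec.Code,
      ∀ σ : List ℕ, Encodable.encode (θ.1 σ) ∈ c.eval (Encodable.encode σ) := by
    rintro ⟨θ, hθ⟩
    obtain ⟨c, hc⟩ := Nat.Partrec.Code.exists_code.1 hθ
    refine ⟨c, fun σ => ?_⟩
    rw [hc]
    simp
  choose c hc using h
  have : Function.Injective c := by
    intro θ θ' h
    apply Subtype.ext
    funext σ
    have h1 := hc θ σ
    have h2 := hc θ' σ
    rw [h] at h1
    exact Encodable.encode_injective (Part.mem_unique h1 h2)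
  exact this.countable

theorem countable_comp {s : Space} (G : Degrees s) : {g : Degrees s | IsComp g G}.Countable := by
  obtain ⟨G, rfl⟩ := exists_rep G
  have h : ∀ g : {g : Degrees s | IsComp g (deg G)}, ∃ (f : ClosedSets s)
      (θ : {θ : List ℕ → List ℕ // Computable θ}), deg f = g.1 ∧ Repr f G θ.1 := by
    rintro ⟨g, hg⟩
    obtain ⟨f, rfl⟩ := exists_rep g
    obtain ⟨θ, hθ⟩ := exists_repr hg
    exact ⟨f, ⟨θ, hθ.1.1⟩, rfl, hθ⟩
  choose f θ h1 h2 using h
  have : Function.Injective θ := by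
    intro g g' h
    apply Subtype.ext
    rw [← h1, ← h1]
    have a := h2 g
    have b := h2 g'
    rw [h] at a
    apply le_antisymm
    · rw [deg_le]
      exact medvedevLe_trans a.2.2.1 b.2.2.2.1
    · rw [deg_le]
      exact medvedevLe_trans b.2.2.1 a.2.2.2.1
  have := countable_computable
  exact Set.countable_coe_iff.1 (Function.Injective.countable ‹Function.Injective θ›)

end Pool.Agent.W939.Med
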